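import Pool.Agent.K7.H30.VoA

set_option autoImplicit false
set_option linter.unusedSectionVars false

/-!
# Relevant vectors and relevant classes

`Λ` is a lattice with the class map `pr` to `V = Λ / 2Λ`; `f` is its vonorm function.  The Voronoi
relevant vectors are the minimal vectors of the relevant classes, a notion which depends on `f`
only; every lattice vector `u` is a sum of relevant vectors of total norm at most the norm of `u`.
-/

namespace Pool.Agent.L7h84.Vo

open Pool.Agent.K7.H30.Vo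

section basic

variable {L V : Type} [AddCommGroup L] [AddCommGroup V]

/-- `f` is the vonorm function of the lattice. -/
structure IsVo (Λ : Lat L V) (f : V → ℝ) : Prop where
  le : ∀ x, f (Λ.pr x) ≤ Λ.q x
  ex : ∀ c, ∃ x, Λ.pr x = c ∧ Λ.q x = f c

/-- `x` is a minimal vector of the class `c`. -/
def Mn (Λ : Lat L V) (f : V → ℝ) (c : V) (x : L) : Prop := Λ.pr x = c ∧ Λ.q x = f c

/-- relevant class -/
def Rel (f : V → ℝ) (c : V) : Prop := c ≠ 0 ∧ ∀ s, s ≠ 0 → s ≠ c → f c < f s + f (s + c)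

/-- Voronoi relevant vector -/
def RV (Λ : Lat L V) (x : L) : Prop := x ≠ 0 ∧ ∀ u, u ≠ 0 → u ≠ x → Λ.b x u < Λ.q u

/-- pairing with a vector as an additive map -/
def bl (Λ : Lat L V) (z : L) : L →+ ℝ :=
  AddMonoidHom.mk' (fun x => Λ.b x z) (fun x y => Λ.add_left x y z)

lemma bl_apply (Λ : Lat L V) (x z : L) : bl Λ z x = Λ.b x z := rfl

/-- integral combinations -/
def comb (g : V → L) (S : Finset V) (k : V → ℤ) : L := ∑ c ∈ S, k c • g c

lemma b_comb_left (Λ : Lat L V) (g : V → L) (S : Finset V) (k : V → ℤ) (z : L) :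
    Λ.b (comb g S k) z = ∑ c ∈ S, (k c : ℝ) * Λ.b (g c) z := by
  rw [← bl_apply]
  unfold comb
  rw [map_sum]
  apply Finset.sum_congr rfl
  intro c _
  rw [map_zsmul, bl_apply, zsmul_eq_mul]

lemma b_comb_right (Λ : Lat L V) (g : V → L) (S : Finset V) (k : V → ℤ) (z : L) :
    Λ.b z (comb g S k) = ∑ c ∈ S, (k c : ℝ) * Λ.b z (g c) := by
  rw [Λ.symm, b_comb_left]
  apply Finset.sum_congr rfl
  intro c _
  rw [Λ.symm]

variable {L' : Type} [AddCommGroup L']

lemma comb_iso (Λ : Lat L V) (Λ' : Lat L' V) {S T : Finset V} {g h : V → L} {g' h' : V → L'}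
    (H : ∀ c ∈ S, ∀ d ∈ T, Λ'.b (g' c) (h' d) = Λ.b (g c) (h d)) (k l : V → ℤ) :
    Λ'.b (comb g' S k) (comb h' T l) = Λ.b (comb g S k) (comb h T l) := by
  rw [b_comb_left, b_comb_left]
  apply Finset.sum_congr rfl
  intro c hc
  rw [b_comb_right, b_comb_right]
  congr 1
  apply Finset.sum_congr rfl
  intro d hd
  rw [H c hc d hd]

lemma comb_iso_left (Λ : Lat L V) (Λ' : Lat L' V) {S : Finset V} {g : V → L} {g' : V → L'}
    {z : L} {z' : L'}
    (H : ∀ c ∈ S, Λ'.b (g' c) z' = Λ.b (g c) z) (k : V → ℤ) :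
    Λ'.b (comb g' S k) z' = Λ.b (comb g S k) z := by
  rw [b_comb_left, b_comb_left]
  apply Finset.sum_congr rfl
  intro c hc
  rw [H c hc]

lemma comb_zero (Λ : Lat L V) {S T : Finset V} {g h : V → L}
    (H : ∀ c ∈ S, ∀ d ∈ T, Λ.b (g c) (h d) = 0) (k l : V → ℤ) :
    Λ.b (comb g S k) (comb h T l) = 0 := by
  rw [b_comb_left]
  apply Finset.sum_eq_zero
  intro c hc
  rw [b_comb_right]
  rw [Finset.sum_eq_zero, mul_zero]
  intro d hd
  rw [H c hc d hd, mul_zero]

lemma comb_zero_left (Λ : Lat L V) {S : Finset V} {g : V → L} {z : L}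
    (H : ∀ c ∈ S, Λ.b (g c) z = 0) (k : V → ℤ) :
    Λ.b (comb g S k) z = 0 := by
  rw [b_comb_left]
  apply Finset.sum_eq_zero
  intro c hc
  rw [H c hc, mul_zero]

lemma pr_comb (Λ : Lat L V) (Λ' : Lat L' V) {S : Finset V} {g : V → L} {g' : V → L'}
    (H : ∀ c ∈ S, Λ'.pr (g' c) = Λ.pr (g c)) (k : V → ℤ) :
    Λ'.pr (comb g' S k) = Λ.pr (comb g S k) := by
  unfold comb
  rw [map_sum, map_sum]
  apply Finset.sum_congr rfl
  intro c hc
  rw [map_zsmul, map_zsmul, H c hc]

lemma comb_congr {S : Finset V} {g h : V → L} (H : ∀ c ∈ S, g c = h c) (k : V → ℤ) :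
    comb g S k = comb h S k := by
  unfold comb
  apply Finset.sum_congr rfl
  intro c hc
  rw [H c hc]

lemma comb_congr_neg {S : Finset V} {g h : V → L} (H : ∀ c ∈ S, g c = - h c) (k : V → ℤ) :
    comb g S k = - comb h S k := by
  unfold comb
  rw [← Finset.sum_neg_distrib]
  apply Finset.sum_congr rfl
  intro c hc
  rw [H c hc, smul_neg]

lemma comb_filter (g : V → L) (S : Finset V) (k : V → ℤ) (p : V → Prop) [DecidablePred p] :
    comb g (S.filter p) k + comb g (S.filter (fun c => ¬ p c)) k = comb g S k := by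
  unfold comb
  exact Finset.sum_filter_add_sum_filter_not S p _

end basic

section rel

variable {L V : Type} [AddCommGroup L] [AddCommGroup V] [Module (ZMod 2) V]
  {Λ : Lat L V} {f : V → ℝ}

lemma pr_half {x z : L} (h : Λ.pr z = Λ.pr x) : ∃ u, z = x - (u + u) := by
  obtain ⟨u, hu⟩ := Λ.ker (x - z) (by rw [map_sub, h, sub_self])
  exact ⟨u, by rw [← hu]; abel⟩

lemma q_sub_double (x u : L) : Λ.q (x - (u + u)) = Λ.q x + 4 * Λ.q u - 4 * Λ.b x u := by
  rw [Λ.q_sub, Λ.q_add, Λ.add_right]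
  have : Λ.b u u = Λ.q u := rfl
  rw [this]; ring

lemma RV.uniq {x z : L} (hx : RV Λ x) (hp : Λ.pr z = Λ.pr x) (hq : Λ.q z ≤ Λ.q x) :
    z = x ∨ z = -x := by
  obtain ⟨u, hu⟩ := pr_half hp
  by_cases h0 : u = 0
  · left; rw [hu, h0]; abel
  by_cases h1 : u = x
  · right; rw [hu, h1]; abel
  exfalso
  have h2 := hx.2 u h0 h1
  have h3 := q_sub_double (Λ := Λ) x u
  rw [← hu] at h3
  linarith

lemma RV.neg {x : L} (hx : RV Λ x) : RV Λ (-x) := by
  refine ⟨neg_ne_zero.mpr hx.1, ?_⟩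
  intro u h0 h1
  have h2 := hx.2 (-u) (neg_ne_zero.mpr h0) (fun h => h1 (by rw [← h, neg_neg]))
  rw [Λ.neg_right, Λ.q_neg] at h2
  rw [Λ.neg_left]
  exact h2

lemma RV.mn (hf : IsVo Λ f) {x : L} (hx : RV Λ x) : Mn Λ f (Λ.pr x) x := by
  refine ⟨rfl, ?_⟩
  obtain ⟨z, hz1, hz2⟩ := hf.ex (Λ.pr x)
  have h1 := hf.le x
  rcases hx.uniq hz1 (by rw [hz2]; exact h1) with h | h
  · rw [← hz2, h]
  · rw [← hz2, h, Λ.q_neg]

lemma RV.rel (hf : IsVo Λ f) {x : L} (hx : RV Λ x) : Rel f (Λ.pr x) := by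
  have hq := (hx.mn hf).2
  constructor
  · intro h0
    obtain ⟨u, hu⟩ := Λ.ker x h0
    have hu0 : u ≠ 0 := by
      intro h; apply hx.1; rw [hu, h, add_zero]
    have hux : u ≠ x := by
      intro h
      apply hu0
      have : x = x + x := by rw [h] at hu; exact hu
      rw [h]; exact left_eq_add.mp this
    have h2 := hx.2 u hu0 hux
    rw [hu, Λ.add_left] at h2
    have h3 : Λ.b u u = Λ.q u := rfl
    have h4 := Λ.q_pos hu0
    linarith
  · intro s hs0 hsc
    by_contra hlt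
    push Not at hlt
    obtain ⟨u, hu1, hu2⟩ := hf.ex s
    obtain ⟨v, hv1, hv2⟩ := hf.ex (s + Λ.pr x)
    have p1 : Λ.pr (u + v) = Λ.pr x := by rw [map_add, hu1, hv1, add_add_cancel']
    have p2 : Λ.pr (u - v) = Λ.pr x := by rw [map_sub, hu1, hv1, sub_eq_add', add_add_cancel']
    have e1 := Λ.q_add u v
    have e2 := Λ.q_sub u v
    have l1 := hf.le (u + v)
    have l2 := hf.le (u - v)
    rw [p1] at l1
    rw [p2] at l2
    have a1 := hx.uniq p1 (by linarith)
    have a2 := hx.uniq p2 (by linarith)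
    have hu0 : u ≠ 0 := by intro h; apply hs0; rw [← hu1, h, map_zero]
    have hv0 : v ≠ 0 := by
      intro h; apply hsc; rw [h, map_zero] at hv1
      exact add_eq_zero_iff'.mp hv1.symm
    have c1 : u + v = u - v → False := by
      intro h
      apply hv0
      apply Λ.double_eq_zero
      have : v + v = (u + v) - (u - v) := by abel
      rw [this, h, sub_self]
    have c2 : u + v = -(u - v) → False := by
      intro h
      apply hu0
      apply Λ.double_eq_zero
      have : u + u = (u + v) + (u - v) := by abel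
      rw [this, h, neg_add_cancel]
    rcases a1 with h | h <;> rcases a2 with h' | h'
    · exact c1 (h.trans h'.symm)
    · exact c2 (by rw [h, h', neg_neg])
    · exact c2 (by rw [h, h'])
    · exact c1 (h.trans h'.symm)

lemma rv_of_rel (hf : IsVo Λ f) {c : V} (hc : Rel f c) {x : L} (hx : Mn Λ f c x) : RV Λ x := by
  have hx0 : x ≠ 0 := by
    intro h; apply hc.1; rw [← hx.1, h, map_zero]
  refine ⟨hx0, ?_⟩
  intro u h0 h1
  by_contra hlt
  push Not at hlt
  have hv0 : x - u ≠ 0 := fun h => h1 (sub_eq_zero.mp h).symm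
  have e1 := Λ.q_sub x u
  have qu := Λ.q_pos h0
  have qv := Λ.q_pos hv0
  have l1 := hf.le u
  have l2 := hf.le (x - u)
  have pv : Λ.pr (x - u) = Λ.pr u + c := by
    rw [map_sub, hx.1, sub_eq_add', add_comm]
  rw [pv] at l2
  have hq := hx.2
  by_cases g0 : Λ.pr u = 0
  · rw [g0, zero_add] at l2
    linarith
  by_cases g1 : Λ.pr u = c
  · rw [g1] at l1
    linarith
  have := hc.2 _ g0 g1
  linarith

lemma mn_uniq (hf : IsVo Λ f) {c : V} (hc : Rel f c) {x z : L} (hx : Mn Λ f c x)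
    (hz : Mn Λ f c z) : z = x ∨ z = -x :=
  (rv_of_rel hf hc hx).uniq (by rw [hx.1, hz.1]) (by rw [hx.2, hz.2])

lemma Mn.neg {c : V} {x : L} (hx : Mn Λ f c x) : Mn Λ f c (-x) := by
  refine ⟨?_, ?_⟩
  · rw [map_neg, neg_eq, hx.1]
  · rw [Λ.q_neg, hx.2]

lemma IsVo.nonneg (hf : IsVo Λ f) (c : V) : 0 ≤ f c := by
  obtain ⟨x, _, hx⟩ := hf.ex c
  rw [← hx]; exact Λ.q_nonneg x

lemma Rel.pos (hf : IsVo Λ f) {c : V} (hc : Rel f c) : 0 < f c := by
  obtain ⟨x, h1, hx⟩ := hf.ex c
  rw [← hx]; apply Λ.q_pos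
  intro h; apply hc.1; rw [← h1, h, map_zero]

/-- Every vector is a combination of relevant vectors of total norm at most its norm. -/
theorem decomp (hf : IsVo Λ f) (y : V → L) (hy : ∀ c, Rel f c → Mn Λ f c (y c)) :
    ∀ u : L, ∃ (S : Finset V) (k : V → ℤ), (∀ c ∈ S, Rel f c) ∧ comb y S k = u ∧
      ∑ c ∈ S, f c ≤ Λ.q u := by
  classical
  refine Λ.induction_q (P := fun u => ∃ (S : Finset V) (k : V → ℤ), (∀ c ∈ S, Rel f c) ∧
    comb y S k = u ∧ ∑ c ∈ S, f c ≤ Λ.q u) ?_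
  intro u ih
  by_cases hu0 : u = 0
  · refine ⟨∅, fun _ => 0, by simp, ?_, ?_⟩
    · simp [comb, hu0]
    · simp [Λ.q_nonneg]
  by_cases hrv : RV Λ u
  · have hr := hrv.rel hf
    have hm := hrv.mn hf
    rcases mn_uniq hf hr (hy _ hr) hm with h | h
    · refine ⟨{Λ.pr u}, fun _ => 1, ?_, ?_, ?_⟩
      · intro c hc; rw [Finset.mem_singleton.mp hc]; exact hr
      · simp only [comb, Finset.sum_singleton, one_smul]; exact h.symm
      · rw [Finset.sum_singleton, hm.2]
    · refine ⟨{Λ.pr u}, fun _ => -1, ?_, ?_, ?_⟩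
      · intro c hc; rw [Finset.mem_singleton.mp hc]; exact hr
      · simp only [comb, Finset.sum_singleton, neg_smul, one_smul]; exact h.symm
      · rw [Finset.sum_singleton, hm.2]
  · have : ∃ p, p ≠ 0 ∧ p ≠ u ∧ Λ.q p ≤ Λ.b u p := by
      by_contra hno
      push Not at hno
      exact hrv ⟨hu0, fun p h0 h1 => hno p h0 h1⟩
    obtain ⟨p, hp0, hpu, hpb⟩ := this
    have hv0 : u - p ≠ 0 := fun h => hpu (sub_eq_zero.mp h).symm
    have e1 := Λ.q_sub u p
    have qp := Λ.q_pos hp0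
    have qv := Λ.q_pos hv0
    obtain ⟨S1, k1, h11, h12, h13⟩ := ih p (by linarith)
    obtain ⟨S2, k2, h21, h22, h23⟩ := ih (u - p) (by linarith)
    refine ⟨S1 ∪ S2, fun c => (if c ∈ S1 then k1 c else 0) + (if c ∈ S2 then k2 c else 0),
      ?_, ?_, ?_⟩
    · intro c hc
      rcases Finset.mem_union.mp hc with h | h
      · exact h11 c h
      · exact h21 c h
    · have hsplit : u = p + (u - p) := by abel
      rw [hsplit, ← h22, ← h12]
      unfold comb
      simp only [add_smul]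
      rw [Finset.sum_add_distrib]
      congr 1
      · rw [← Finset.sum_subset (Finset.subset_union_left (s₁ := S1) (s₂ := S2))]
        · apply Finset.sum_congr rfl
          intro c hc; rw [if_pos hc]
        · intro c _ hc; rw [if_neg hc, zero_smul]
      · rw [← Finset.sum_subset (Finset.subset_union_right (s₁ := S1) (s₂ := S2))]
        · apply Finset.sum_congr rfl
          intro c hc; rw [if_pos hc]
        · intro c _ hc; rw [if_neg hc, zero_smul]
    · have h3 : ∑ c ∈ S1 ∪ S2, f c + ∑ c ∈ S1 ∩ S2, f c = ∑ c ∈ S1, f c + ∑ c ∈ S2, f c :=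
        Finset.sum_union_inter
      have h4 : 0 ≤ ∑ c ∈ S1 ∩ S2, f c := Finset.sum_nonneg (fun c _ => hf.nonneg c)
      linarith

end rel

end Pool.Agent.L7h84.Vo
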