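import Pool.Agent.L7h84.Vo.Pair

set_option autoImplicit false
set_option linter.unusedSectionVars false

/-!
# The core computation for a non-tame set with at least three elements
-/

namespace Pool.Agent.L7h84.Vo

open Pool.Agent.K7.H30.Vo

variable {L L' V : Type} [AddCommGroup L] [AddCommGroup L'] [AddCommGroup V] [Module (ZMod 2) V]
  {Λ : Lat L V} {Λ' : Lat L' V} {f : V → ℝ}

theorem cyc_core (hf : IsVo Λ f) (y : V → L) (hy : ∀ c, Rel f c → Mn Λ f c (y c))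
    {c0 c1 : V} (h0 : Rel f c0) (hne : Λ.b (y c0) (y c1) ≠ 0)
    (R0 K : Finset V) (k : V → ℤ)
    (hX : comb y K k = y c0 + y c1) (α κ μ : V → L') (z0 z1 : L')
    (hα : ∀ c ∈ K, ∀ d ∈ K, Λ'.b (α c) (α d) = Λ.b (y c) (y d))
    (hαs : comb α K k = z0 + z1)
    (hα1 : ∀ c ∈ K, Λ'.b (α c) z1 = Λ.b (y c) (y c1))
    (hη1 : ∀ r ∈ R0, Λ'.b (κ r) z1 = Λ.b (y r) (y c1))
    (hη0 : ∀ r ∈ R0, Λ'.b (κ r) z0 = - Λ.b (y r) (y c0))
    (hκ : ∀ c ∈ K, ∀ d ∈ K, Λ'.b (κ c) (κ d) = Λ.b (y c) (y d))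
    (hκr : ∀ c ∈ K, ∀ r ∈ R0, Λ'.b (κ c) (κ r) = Λ.b (y c) (y r))
    (sα : ∀ c ∈ K, κ c = α c ∨ κ c = - α c)
    (K2 : Finset V) (hK2 : ∀ c, c ∈ K2 ↔ c ∈ K ∧ ¬ κ c = α c)
    (hμ : ∀ c ∈ K2, ∀ d ∈ K2, Λ'.b (μ c) (μ d) = Λ.b (y c) (y d))
    (hμr : ∀ c ∈ K2, ∀ r ∈ R0, Λ'.b (μ c) (κ r) = Λ.b (y c) (y r))
    (hμ1 : ∀ c ∈ K2, Λ'.b (μ c) z1 = Λ.b (y c) (y c1))
    (sμ : ∀ c ∈ K2, μ c = κ c ∨ μ c = - κ c) :
    ∀ r ∈ R0, Λ.b (y r) (y c0) = 0 := by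
  classical
  have hK2e : K2 = K.filter (fun c => ¬ κ c = α c) := by
    ext c; rw [hK2, Finset.mem_filter]
  set K1 := K.filter (fun c => κ c = α c) with hK1
  set Ka := K2.filter (fun c => μ c = κ c) with hKa
  set Kb := K2.filter (fun c => ¬ μ c = κ c) with hKb
  have m1 : ∀ c ∈ K1, c ∈ K ∧ κ c = α c := fun c hc => Finset.mem_filter.mp hc
  have m2 : ∀ c ∈ K2, c ∈ K ∧ κ c = - α c := by
    intro c hc
    obtain ⟨h, h'⟩ := (hK2 c).mp hc
    rcases sα c h with h3 | h3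
    · exact absurd h3 h'
    · exact ⟨h, h3⟩
  have ma : ∀ c ∈ Ka, c ∈ K2 ∧ μ c = κ c := fun c hc => Finset.mem_filter.mp hc
  have mb : ∀ c ∈ Kb, c ∈ K2 ∧ μ c = - κ c := by
    intro c hc
    obtain ⟨h, h'⟩ := Finset.mem_filter.mp hc
    rcases sμ c h with h3 | h3
    · exact absurd h3 h'
    · exact ⟨h, h3⟩
  -- orthogonality relations
  have o1 : ∀ c ∈ Kb, ∀ r ∈ R0, Λ.b (y c) (y r) = 0 := by
    intro c hc r hr
    obtain ⟨c2, c3⟩ := mb c hc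
    have e1 := hμr c c2 r hr
    have e2 := hκr c (m2 c c2).1 r hr
    rw [c3, Λ'.neg_left, e2] at e1
    linarith
  have o2 : ∀ c ∈ Ka, Λ.b (y c) (y c1) = 0 := by
    intro c hc
    obtain ⟨c2, c3⟩ := ma c hc
    have e1 := hμ1 c c2
    have e2 := hα1 c (m2 c c2).1
    rw [c3, (m2 c c2).2, Λ'.neg_left, e2] at e1
    linarith
  have o3 : ∀ c ∈ Ka, ∀ d ∈ Kb, Λ.b (y c) (y d) = 0 := by
    intro c hc d hd
    obtain ⟨c2, c3⟩ := ma c hc
    obtain ⟨d2, d3⟩ := mb d hd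
    have e1 := hμ c c2 d d2
    have e2 := hκ c (m2 c c2).1 d (m2 d d2).1
    rw [c3, d3, Λ'.neg_right, e2] at e1
    linarith
  have o4 : ∀ c ∈ K2, ∀ d ∈ K1, Λ.b (y c) (y d) = 0 := by
    intro c hc d hd
    obtain ⟨c2, c3⟩ := m2 c hc
    obtain ⟨d2, d3⟩ := m1 d hd
    have e1 := hκ c c2 d d2
    have e2 := hα c c2 d d2
    rw [c3, d3, Λ'.neg_left, e2] at e1
    linarith
  have hsp : ∀ g : V → L, comb g K k = comb g K1 k + (comb g Ka k + comb g Kb k) := by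
    intro g
    rw [comb_filter g K2 k (fun c => μ c = κ c), hK2e]
    exact (comb_filter g K k _).symm
  have hsp' : ∀ g : V → L', comb g K k = comb g K1 k + (comb g Ka k + comb g Kb k) := by
    intro g
    rw [comb_filter g K2 k (fun c => μ c = κ c), hK2e]
    exact (comb_filter g K k _).symm
  set X1 := comb y K1 k with hX1
  set Xa := comb y Ka k with hXa
  set Xb := comb y Kb k with hXb
  have eX : y c0 + y c1 = X1 + (Xa + Xb) := by rw [← hX]; exact hsp y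
  have a1 : Λ.b Xa X1 = 0 :=
    comb_zero Λ (fun c hc d hd => o4 c (ma c hc).1 d hd) k k
  have a2 : Λ.b Xa Xb = 0 := comb_zero Λ (fun c hc d hd => o3 c hc d hd) k k
  have a3 : Λ.b Xa (y c1) = 0 := comb_zero_left Λ o2 k
  have a4 : Λ.b (y c0) Xa = Λ.q Xa := by
    have e : y c0 = X1 + (Xa + Xb) - y c1 := by rw [← eX]; abel
    rw [Λ.symm, e, Λ.sub_right, Λ.add_right, Λ.add_right, a1, a2, a3]
    show 0 + (Λ.b Xa Xa + 0) - 0 = Λ.b Xa Xa
    ring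
  have hXa0 : Xa = 0 := by
    by_contra hn
    have hn1 : Xa ≠ y c0 := by
      intro h
      apply hne
      rw [← h]; exact a3
    have := (rv_of_rel hf h0 (hy c0 h0)).2 Xa hn hn1
    linarith
  have hαa : comb α Ka k = 0 := by
    apply Λ'.eq_zero_of_q
    have : Λ'.q (comb α Ka k) = Λ.q Xa :=
      comb_iso Λ Λ' (fun c hc d hd => hα c (m2 c (ma c hc).1).1 d (m2 d (ma d hd).1).1) k k
    rw [this, hXa0, Λ.q_zero]
  intro r hr
  -- compute `b (κ r) (z0 + z1)` in two ways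
  have u1 : Λ'.b (comb α K1 k) (κ r) = Λ.b X1 (y r) := by
    rw [← comb_congr (g := κ) (h := α) (fun c hc => (m1 c hc).2) k]
    exact comb_iso_left Λ Λ' (fun c hc => hκr c (m1 c hc).1 r hr) k
  have u2 : Λ'.b (comb α Kb k) (κ r) = 0 := by
    have e : comb κ Kb k = - comb α Kb k :=
      comb_congr_neg (fun c hc => (m2 c (mb c hc).1).2) k
    have e2 : Λ'.b (comb κ Kb k) (κ r) = 0 := by
      apply comb_zero_left
      intro c hc
      rw [hκr c (m2 c (mb c hc).1).1 r hr]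
      exact o1 c hc r hr
    rw [e, Λ'.neg_left] at e2
    linarith
  have u3 : Λ.b Xb (y r) = 0 := comb_zero_left Λ (fun c hc => o1 c hc r hr) k
  have v1 : Λ'.b (z0 + z1) (κ r) = Λ.b (y c0 + y c1) (y r) := by
    rw [← hαs, hsp' α, hαa, zero_add, Λ'.add_left, u1, u2, eX, hXa0, zero_add, Λ.add_left, u3]
  rw [Λ'.add_left, Λ'.symm z0, Λ'.symm z1, hη1 r hr, hη0 r hr, Λ.add_left, Λ.symm (y c0),
    Λ.symm (y c1)] at v1
  linarith

end Pool.Agent.L7h84.Vo
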