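import Pool.Agent.L7h84.Vo.Cyc

set_option autoImplicit false
set_option linter.unusedSectionVars false

/-!
# A non-tame set of least weight has at most two elements
-/

namespace Pool.Agent.L7h84.Vo

open Pool.Agent.K7.H30.Vo

variable {L L' V : Type} [AddCommGroup L] [AddCommGroup L'] [AddCommGroup V] [Module (ZMod 2) V]
  {Λ : Lat L V} {Λ' : Lat L' V} {f : V → ℝ}

lemma Tame.mk' {S : Finset V} (y : V → L) (g : V → L') (hy : ∀ c ∈ S, Mn Λ f c (y c))
    (hg : ∀ c ∈ S, Mn Λ' f c (g c))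
    (H : ∀ c ∈ S, ∀ d ∈ S, c ≠ d → Λ'.b (g c) (g d) = Λ.b (y c) (y d)) : Tame Λ Λ' f S := by
  refine ⟨y, g, hy, hg, ?_⟩
  intro c hc d hd
  by_cases h : c = d
  · rw [← h]; exact (hg c hc).2.trans (hy c hc).2.symm
  · exact H c hc d hd h

/-- a symmetric version: it suffices to check the pairs in one order for a splitting -/
lemma pair_abs (hf : IsVo Λ f) (hf' : IsVo Λ' f) [DecidableEq V] {c d : V} (hc : Rel f c)
    (hd : Rel f d) (hT : Tame Λ Λ' f {c, d}) {x x' : L} {z z' : L'} (hx : Mn Λ f c x)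
    (hx' : Mn Λ f d x') (hz : Mn Λ' f c z) (hz' : Mn Λ' f d z') (h0 : Λ.b x x' = 0) :
    Λ'.b z z' = 0 := by
  obtain ⟨y, g, hy, hg⟩ := hT
  have mc : c ∈ ({c, d} : Finset V) := by simp
  have md : d ∈ ({c, d} : Finset V) := by simp
  have e := hg.iso c mc d md
  have h1 : Λ.b (y c) (y d) = 0 := by
    rcases mn_uniq hf hc hx (hy c mc) with h | h <;> rcases mn_uniq hf hd hx' (hy d md) with h' | h'
      <;> rw [h, h'] <;> simp only [Λ.neg_left, Λ.neg_right, h0, neg_zero]
  rw [h1] at e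
  rcases mn_uniq hf' hc (hg.mn c mc) hz with h | h <;>
    rcases mn_uniq hf' hd (hg.mn d md) hz' with h' | h' <;>
    rw [h, h'] <;> simp only [Λ'.neg_left, Λ'.neg_right, e, neg_zero]

theorem cycle_false [DecidableEq V] (hf : IsVo Λ f) (hf' : IsVo Λ' f) {S : Finset V}
    (hS : ∀ c ∈ S, Rel f c) (hnt : ¬ Tame Λ Λ' f S) (h3 : 3 ≤ S.card)
    (HT : ∀ T : Finset V, (∀ c ∈ T, Rel f c) → ∑ c ∈ T, f c < ∑ c ∈ S, f c → Tame Λ Λ' f T) :
    False := by
  classical
  choose y₀ hy₀ using hf.ex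
  choose zz hzz using hf'.ex
  have hy₀ : ∀ c, Mn Λ f c (y₀ c) := hy₀
  have hzz : ∀ c, Mn Λ' f c (zz c) := hzz
  have hfpos : ∀ c ∈ S, 0 < f c := fun c hc => (hS c hc).pos hf
  -- proper subsets are tame
  have hsub : ∀ T : Finset V, T ⊆ S → ∀ i ∈ S, i ∉ T → Tame Λ Λ' f T := by
    intro T hT i hi hiT
    apply HT T (fun c hc => hS c (hT hc))
    exact Finset.sum_lt_sum_of_subset hT hi hiT (hfpos i hi) (fun j hj _ => (hfpos j hj).le)
  have hpair : ∀ c ∈ S, ∀ d ∈ S, Tame Λ Λ' f {c, d} := by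
    intro c hc d hd
    have hcard : ({c, d} : Finset V).card < S.card :=
      lt_of_le_of_lt Finset.card_le_two (by omega)
    obtain ⟨i, hi, hi'⟩ := Finset.exists_mem_notMem_of_card_lt_card hcard
    refine hsub _ ?_ i hi hi'
    intro a ha
    simp only [Finset.mem_insert, Finset.mem_singleton] at ha
    rcases ha with rfl | rfl
    · exact hc
    · exact hd
  have orth : ∀ c ∈ S, ∀ d ∈ S, ∀ {x x' : L} {z z' : L'}, Mn Λ f c x → Mn Λ f d x' →
      Mn Λ' f c z → Mn Λ' f d z' → Λ.b x x' = 0 → Λ'.b z z' = 0 :=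
    fun c hc d hd _ _ _ _ hx hx' hz hz' h =>
      pair_abs hf hf' (hS c hc) (hS d hd) (hpair c hc d hd) hx hx' hz hz' h
  have hne : S.Nonempty := Finset.card_pos.mp (by omega)
  obtain ⟨c0, hc0, hmin⟩ := Finset.exists_min_image S f hne
  -- a class which is not orthogonal to `c0`
  obtain ⟨c1, hc1, hc10, hb01⟩ : ∃ c1 ∈ S, c1 ≠ c0 ∧ Λ.b (y₀ c0) (y₀ c1) ≠ 0 := by
    by_contra hno
    push Not at hno
    apply hnt
    have hT := hsub (S.erase c0) (Finset.erase_subset _ _) c0 hc0 (Finset.notMem_erase c0 S)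
    obtain ⟨g, hg⟩ := hT.lift hf (fun c hc => hS c (Finset.mem_of_mem_erase hc))
      (y := y₀) (fun c _ => hy₀ c)
    refine Tame.mk' y₀ (fun c => if c = c0 then zz c0 else g c) (fun c _ => hy₀ c) ?_ ?_
    · intro c hc
      by_cases h : c = c0
      · rw [if_pos h, h]; exact hzz c0
      · rw [if_neg h]; exact hg.mn c (Finset.mem_erase.mpr ⟨h, hc⟩)
    · intro c hc d hd hcd
      by_cases h : c = c0
      · have h' : d ≠ c0 := fun h' => hcd (h.trans h'.symm)
        simp only [if_pos h, if_neg h']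
        rw [h, hno d hd h']
        exact orth c0 hc0 d hd (hy₀ c0) (hy₀ d) (hzz c0)
          (hg.mn d (Finset.mem_erase.mpr ⟨h', hd⟩)) (hno d hd h')
      · by_cases h' : d = c0
        · simp only [if_neg h, if_pos h']
          rw [h', Λ.symm, hno c hc h, Λ'.symm]
          exact orth c0 hc0 c hc (hy₀ c0) (hy₀ c) (hzz c0)
            (hg.mn c (Finset.mem_erase.mpr ⟨h, hc⟩)) (hno c hc h)
        · simp only [if_neg h, if_neg h']
          exact hg.iso c (Finset.mem_erase.mpr ⟨h, hc⟩) d (Finset.mem_erase.mpr ⟨h', hd⟩)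
  -- choice of signs
  obtain ⟨y, hy, hyneg⟩ : ∃ y : V → L, (∀ c, Mn Λ f c (y c)) ∧ Λ.b (y c0) (y c1) < 0 := by
    rcases lt_or_gt_of_ne hb01 with h | h
    · exact ⟨y₀, hy₀, h⟩
    · refine ⟨fun c => if c = c1 then - y₀ c else y₀ c, ?_, ?_⟩
      · intro c
        show Mn Λ f c (if c = c1 then - y₀ c else y₀ c)
        split_ifs
        · exact (hy₀ c).neg
        · exact hy₀ c
      · simp only [if_neg (Ne.symm hc10), if_true]
        rw [Λ.neg_right]; linarith
  have r0 : Rel f c0 := hS c0 hc0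
  have r1 : Rel f c1 := hS c1 hc1
  set R0 := (S.erase c0).erase c1 with hR0
  have hmem0 : ∀ c, c ∈ R0 ↔ c ≠ c1 ∧ c ≠ c0 ∧ c ∈ S := by
    intro c; rw [hR0, Finset.mem_erase, Finset.mem_erase]
  have hSeq : S = insert c0 (insert c1 R0) := by
    ext c
    rw [Finset.mem_insert, Finset.mem_insert, hmem0]
    constructor
    · intro h
      by_cases h1 : c = c0
      · exact Or.inl h1
      · by_cases h2 : c = c1
        · exact Or.inr (Or.inl h2)
        · exact Or.inr (Or.inr ⟨h2, h1, h⟩)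
    · rintro (h | h | h)
      · rw [h]; exact hc0
      · rw [h]; exact hc1
      · exact h.2.2
  have n1 : c1 ∉ R0 := fun h => ((hmem0 c1).mp h).1 rfl
  have n0 : c0 ∉ R0 := fun h => ((hmem0 c0).mp h).2.1 rfl
  have n0' : c0 ∉ insert c1 R0 := by
    rw [Finset.mem_insert]; push Not; exact ⟨Ne.symm hc10, n0⟩
  have hsum : ∑ c ∈ S, f c = f c0 + (f c1 + ∑ c ∈ R0, f c) := by
    conv_lhs => rw [hSeq]
    rw [Finset.sum_insert n0', Finset.sum_insert n1]
  have hR0S : R0 ⊆ S := fun c hc => ((hmem0 c).mp hc).2.2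
  have hR0rel : ∀ c ∈ R0, Rel f c := fun c hc => hS c (hR0S hc)
  have hR0ne : R0.Nonempty := by
    have : S.card = R0.card + 1 + 1 := by
      conv_lhs => rw [hSeq]
      rw [Finset.card_insert_of_notMem n0', Finset.card_insert_of_notMem n1]
    exact Finset.card_pos.mp (by omega)
  have hR0w : f c0 ≤ ∑ c ∈ R0, f c := by
    obtain ⟨r, hr⟩ := hR0ne
    exact le_trans (hmin r (hR0S hr))
      (Finset.single_le_sum (f := f) (fun c _ => hf.nonneg c) hr)
  have hyR : ∀ c, Rel f c → Mn Λ f c (y c) := fun c _ => hy c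
  -- the decomposition of `y c0 + y c1`
  obtain ⟨K, k, hKrel, hKs, hKw⟩ := decomp hf y hyR (y c0 + y c1)
  have hqX : Λ.q (y c0 + y c1) = f c0 + f c1 + 2 * Λ.b (y c0) (y c1) := by
    rw [Λ.q_add, (hy c0).2, (hy c1).2]
  rw [hqX] at hKw
  have rK0 : ∀ c ∈ insert c0 K, Rel f c := by
    intro c hc
    rcases Finset.mem_insert.mp hc with h | h
    · rw [h]; exact r0
    · exact hKrel c h
  obtain ⟨α, hα⟩ := (HT (insert c0 K) rK0 (by
    have := wsum_insert_le hf c0 K; linarith)).lift hf rK0 (y := y) (fun c _ => hy c)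
  have mK : ∀ {c}, c ∈ K → c ∈ insert c0 K := fun hc => Finset.mem_insert_of_mem hc
  have m0 : c0 ∈ insert c0 K := Finset.mem_insert_self _ _
  obtain ⟨z0, hz0⟩ : ∃ z0, z0 = α c0 := ⟨_, rfl⟩
  obtain ⟨z1, hz1⟩ : ∃ z1, z1 = comb α K k - z0 := ⟨_, rfl⟩
  have mz0 : Mn Λ' f c0 z0 := by rw [hz0]; exact hα.mn c0 m0
  have hαs : comb α K k = z0 + z1 := by rw [hz1]; abel
  have hα0 : ∀ c ∈ K, Λ'.b (α c) z0 = Λ.b (y c) (y c0) := by
    intro c hc; rw [hz0]; exact hα.iso c (mK hc) c0 m0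
  have hαX : ∀ c ∈ insert c0 K, Λ'.b (α c) (comb α K k) = Λ.b (y c) (y c0 + y c1) := by
    intro c hc
    rw [← hKs, Λ'.symm, Λ.symm]
    exact comb_iso_left Λ Λ' (fun d hd => hα.iso d (mK hd) c hc) k
  have hα1 : ∀ c ∈ K, Λ'.b (α c) z1 = Λ.b (y c) (y c1) := by
    intro c hc
    rw [hz1, Λ'.sub_right, hαX c (mK hc), hα0 c hc, Λ.add_right]
    ring
  have b01 : Λ'.b z0 z1 = Λ.b (y c0) (y c1) := by
    have e1 := hαX c0 m0
    rw [← hz0] at e1
    rw [hz1, Λ'.sub_right, e1, Λ.add_right]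
    have e2 : Λ'.b z0 z0 = f c0 := mz0.2
    have e3 : Λ.b (y c0) (y c0) = f c0 := (hy c0).2
    rw [e2, e3]; ring
  have mz1 : Mn Λ' f c1 z1 := by
    constructor
    · have e1 : Λ'.pr (comb α K k) = Λ.pr (comb y K k) :=
        pr_comb Λ Λ' (fun c hc => by rw [(hα.mn c (mK hc)).1, (hy c).1]) k
      rw [hz1, map_sub, e1, hKs, map_add, (hy c0).1, (hy c1).1, mz0.1]
      abel
    · have e1 : Λ'.q (comb α K k) = Λ.q (comb y K k) :=
        comb_iso Λ Λ' (fun c hc d hd => hα.iso c (mK hc) d (mK hd)) k k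
      rw [hKs, hqX, hαs, Λ'.q_add, mz0.2, b01] at e1
      linarith
  -- normalisation of lifts
  have norm1 : ∀ g0 g1 : L', g0 = z0 → Mn Λ' f c1 g1 → Λ'.b g0 g1 = Λ.b (y c0) (y c1) →
      g1 = z1 := by
    intro g0 g1 h0 h1 hb
    rcases mn_uniq hf' r1 mz1 h1 with h | h
    · exact h
    · exfalso
      rw [h0, h, Λ'.neg_right, b01] at hb
      linarith
  -- connectedness
  have conn : ∀ A : Finset V, A ⊆ R0 → (∃ a, a ∈ A) → (∃ a, a ∈ R0 ∧ a ∉ A) →
      (∀ a ∈ A, ∀ b ∈ R0, b ∉ A → Λ.b (y a) (y b) = 0) → False := by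
    rintro A hA ⟨a1, ha1⟩ ⟨a2, ha2, ha2'⟩ hAB
    apply hnt
    have hcA0 : c0 ∉ A := fun h => n0 (hA h)
    have hcA1 : c1 ∉ A := fun h => n1 (hA h)
    have sA : insert c0 (insert c1 A) ⊆ S := by
      rw [hSeq]; exact Finset.insert_subset_insert _ (Finset.insert_subset_insert _ hA)
    have sB : insert c0 (insert c1 (R0 \ A)) ⊆ S := by
      rw [hSeq]
      exact Finset.insert_subset_insert _ (Finset.insert_subset_insert _ Finset.sdiff_subset)
    have tA : Tame Λ Λ' f (insert c0 (insert c1 A)) := by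
      apply hsub _ sA a2 (hR0S ha2)
      rw [Finset.mem_insert, Finset.mem_insert]
      push Not
      exact ⟨fun h => n0 (h ▸ ha2), fun h => n1 (h ▸ ha2), ha2'⟩
    have tB : Tame Λ Λ' f (insert c0 (insert c1 (R0 \ A))) := by
      apply hsub _ sB a1 (hR0S (hA ha1))
      rw [Finset.mem_insert, Finset.mem_insert, Finset.mem_sdiff]
      push Not
      exact ⟨fun h => n0 (h ▸ hA ha1), fun h => n1 (h ▸ hA ha1), fun _ => ha1⟩
    obtain ⟨θ, hθ, hθ0⟩ := tA.lift_norm hf hf' (fun c hc => hS c (sA hc)) (y := y)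
      (fun c _ => hy c) (Finset.mem_insert_self _ _) mz0
    obtain ⟨τ, hτ, hτ0⟩ := tB.lift_norm hf hf' (fun c hc => hS c (sB hc)) (y := y)
      (fun c _ => hy c) (Finset.mem_insert_self _ _) mz0
    have a0m : c0 ∈ insert c0 (insert c1 A) := Finset.mem_insert_self _ _
    have a1m : c1 ∈ insert c0 (insert c1 A) :=
      Finset.mem_insert_of_mem (Finset.mem_insert_self _ _)
    have b0m : c0 ∈ insert c0 (insert c1 (R0 \ A)) := Finset.mem_insert_self _ _
    have b1m : c1 ∈ insert c0 (insert c1 (R0 \ A)) :=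
      Finset.mem_insert_of_mem (Finset.mem_insert_self _ _)
    have hθ1 : θ c1 = z1 := norm1 (θ c0) (θ c1) hθ0 (hθ.mn _ a1m) (hθ.iso _ a0m _ a1m)
    have hτ1 : τ c1 = z1 := norm1 (τ c0) (τ c1) hτ0 (hτ.mn _ b1m) (hτ.iso _ b0m _ b1m)
    have mA : ∀ c ∈ A, c ∈ insert c0 (insert c1 A) := fun c hc =>
      Finset.mem_insert_of_mem (Finset.mem_insert_of_mem hc)
    have mB : ∀ c ∈ S, c ∉ A → c ∈ insert c0 (insert c1 (R0 \ A)) := by
      intro c hc hcA
      rw [hSeq] at hc
      rcases Finset.mem_insert.mp hc with h | h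
      · rw [h]; exact b0m
      · rcases Finset.mem_insert.mp h with h | h
        · rw [h]; exact b1m
        · exact Finset.mem_insert_of_mem (Finset.mem_insert_of_mem
            (Finset.mem_sdiff.mpr ⟨h, hcA⟩))
    -- mixed pairs
    have mix : ∀ c ∈ A, ∀ d ∈ S, d ∉ A → Λ'.b (θ c) (τ d) = Λ.b (y c) (y d) := by
      intro c hc d hd hdA
      by_cases hd0 : d = c0
      · rw [hd0, hτ0, ← hθ0]; exact hθ.iso c (mA c hc) c0 a0m
      by_cases hd1 : d = c1
      · rw [hd1, hτ1, ← hθ1]; exact hθ.iso c (mA c hc) c1 a1m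
      have hdR : d ∈ R0 := (hmem0 d).mpr ⟨hd1, hd0, hd⟩
      rw [hAB c hc d hdR hdA]
      exact orth c (hR0S (hA hc)) d hd (hy c) (hy d) (hθ.mn c (mA c hc)) (hτ.mn d (mB d hd hdA))
        (hAB c hc d hdR hdA)
    refine Tame.mk' y (fun c => if c ∈ A then θ c else τ c) (fun c _ => hy c) ?_ ?_
    · intro c hc
      by_cases h : c ∈ A
      · rw [if_pos h]; exact hθ.mn c (mA c h)
      · rw [if_neg h]; exact hτ.mn c (mB c hc h)
    · intro c hc d hd _
      by_cases h : c ∈ A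
      · by_cases h' : d ∈ A
        · simp only [if_pos h, if_pos h']; exact hθ.iso c (mA c h) d (mA d h')
        · simp only [if_pos h, if_neg h']; exact mix c h d hd h'
      · by_cases h' : d ∈ A
        · simp only [if_neg h, if_pos h']
          rw [Λ'.symm, Λ.symm]; exact mix d h' c hc h
        · simp only [if_neg h, if_neg h']; exact hτ.iso c (mB c hc h) d (mB d hd h')
  -- uniqueness of signs on `R0`
  have uniq : ∀ g h : V → L', (∀ c ∈ R0, Mn Λ' f c (g c)) → (∀ c ∈ R0, Mn Λ' f c (h c)) →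
      (∀ c ∈ R0, ∀ d ∈ R0, Λ'.b (g c) (g d) = Λ.b (y c) (y d)) →
      (∀ c ∈ R0, ∀ d ∈ R0, Λ'.b (h c) (h d) = Λ.b (y c) (y d)) →
      (∀ c ∈ R0, g c = h c) ∨ (∀ c ∈ R0, g c = - h c) := by
    intro g h mg mh ig ih
    by_contra hno
    push Not at hno
    obtain ⟨⟨a, ha, ha'⟩, ⟨b, hb, hb'⟩⟩ := hno
    have hb2 : g b = h b := by
      rcases mn_uniq hf' (hR0rel b hb) (mh b hb) (mg b hb) with h1 | h1
      · exact h1
      · exact absurd h1 hb'
    refine conn (R0.filter (fun c => g c = h c)) (Finset.filter_subset _ _)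
      ⟨b, Finset.mem_filter.mpr ⟨hb, hb2⟩⟩
      ⟨a, ha, fun h1 => ha' (Finset.mem_filter.mp h1).2⟩ ?_
    intro c hc d hd hd'
    obtain ⟨hc1', hc2'⟩ := Finset.mem_filter.mp hc
    have hd2 : g d = - h d := by
      rcases mn_uniq hf' (hR0rel d hd) (mh d hd) (mg d hd) with h1 | h1
      · exact absurd (Finset.mem_filter.mpr ⟨hd, h1⟩) hd'
      · exact h1
    have e1 := ig c hc1' d hd
    have e2 := ih c hc1' d hd
    rw [hc2', hd2, Λ'.neg_right, e2] at e1
    linarith
  -- the lifts of `insert c1 R0`, `insert c0 R0`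
  have s1 : insert c1 R0 ⊆ S := by rw [hSeq]; exact Finset.subset_insert _ _
  have s0 : insert c0 R0 ⊆ S := by
    rw [hSeq]; exact Finset.insert_subset_insert _ (Finset.subset_insert _ _)
  obtain ⟨e1, he1, he1n⟩ := (hsub _ s1 c0 hc0 n0').lift_norm hf hf'
    (fun c hc => hS c (s1 hc)) (y := y) (fun c _ => hy c) (Finset.mem_insert_self _ _) mz1
  obtain ⟨e0, he0, he0n⟩ := (hsub _ s0 c1 hc1 (by
    rw [Finset.mem_insert]; push Not; exact ⟨hc10, n1⟩)).lift_norm hf hf'
    (fun c hc => hS c (s0 hc)) (y := y) (fun c _ => hy c) (Finset.mem_insert_self _ _) mz0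
  have mR1 : ∀ {c}, c ∈ R0 → c ∈ insert c1 R0 := fun hc => Finset.mem_insert_of_mem hc
  have mR0 : ∀ {c}, c ∈ R0 → c ∈ insert c0 R0 := fun hc => Finset.mem_insert_of_mem hc
  -- gluing
  have glue : (∀ r ∈ R0, Λ'.b (e1 r) z0 = Λ.b (y r) (y c0)) → False := by
    intro H
    apply hnt
    refine Tame.mk' y (fun c => if c = c0 then z0 else e1 c) (fun c _ => hy c) ?_ ?_
    · intro c hc
      by_cases h : c = c0
      · rw [if_pos h, h]; exact mz0
      · rw [if_neg h]
        apply he1.mn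
        rw [hSeq] at hc
        rcases Finset.mem_insert.mp hc with h' | h'
        · exact absurd h' h
        · exact h'
    · have key : ∀ c ∈ S, c ≠ c0 → Λ'.b (e1 c) z0 = Λ.b (y c) (y c0) := by
        intro c hc h
        by_cases h1 : c = c1
        · rw [h1, he1n, Λ'.symm, b01, Λ.symm]
        · exact H c ((hmem0 c).mpr ⟨h1, h, hc⟩)
      have mm : ∀ c ∈ S, c ≠ c0 → c ∈ insert c1 R0 := by
        intro c hc h
        rw [hSeq] at hc
        rcases Finset.mem_insert.mp hc with h' | h'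
        · exact absurd h' h
        · exact h'
      intro c hc d hd hcd
      by_cases h : c = c0
      · have h' : d ≠ c0 := fun h' => hcd (h.trans h'.symm)
        simp only [if_pos h, if_neg h']
        rw [h, Λ'.symm, key d hd h', Λ.symm]
      · by_cases h' : d = c0
        · simp only [if_neg h, if_pos h']
          rw [h']; exact key c hc h
        · simp only [if_neg h, if_neg h']
          exact he1.iso c (mm c hc h) d (mm d hd h')
  have glue' : (∀ r ∈ R0, Λ'.b (e0 r) z1 = Λ.b (y r) (y c1)) → False := by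
    intro H
    apply hnt
    have mm : ∀ c ∈ S, c ≠ c1 → c ∈ insert c0 R0 := by
      intro c hc h
      rw [hSeq] at hc
      rcases Finset.mem_insert.mp hc with h' | h'
      · rw [h']; exact Finset.mem_insert_self _ _
      · rcases Finset.mem_insert.mp h' with h' | h'
        · exact absurd h' h
        · exact Finset.mem_insert_of_mem h'
    have key : ∀ c ∈ S, c ≠ c1 → Λ'.b (e0 c) z1 = Λ.b (y c) (y c1) := by
      intro c hc h
      by_cases h1 : c = c0
      · rw [h1, he0n, b01]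
      · exact H c ((hmem0 c).mpr ⟨h, h1, hc⟩)
    refine Tame.mk' y (fun c => if c = c1 then z1 else e0 c) (fun c _ => hy c) ?_ ?_
    · intro c hc
      by_cases h : c = c1
      · rw [if_pos h, h]; exact mz1
      · rw [if_neg h]; exact he0.mn c (mm c hc h)
    · intro c hc d hd hcd
      by_cases h : c = c1
      · have h' : d ≠ c1 := fun h' => hcd (h.trans h'.symm)
        simp only [if_pos h, if_neg h']
        rw [h, Λ'.symm, key d hd h', Λ.symm]
      · by_cases h' : d = c1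
        · simp only [if_neg h, if_pos h']
          rw [h']; exact key c hc h
        · simp only [if_neg h, if_neg h']
          exact he0.iso c (mm c hc h) d (mm d hd h')
  have he01 : ∀ r ∈ R0, Λ'.b (e0 r) z0 = Λ.b (y r) (y c0) := by
    intro r hr
    have := he0.iso r (mR0 hr) c0 (Finset.mem_insert_self _ _)
    rw [he0n] at this; exact this
  have he11 : ∀ r ∈ R0, Λ'.b (e1 r) z1 = Λ.b (y r) (y c1) := by
    intro r hr
    have := he1.iso r (mR1 hr) c1 (Finset.mem_insert_self _ _)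
    rw [he1n] at this; exact this
  -- the two lifts are opposite on `R0`
  have hopp : ∀ r ∈ R0, e0 r = - e1 r := by
    rcases uniq e0 e1 (fun c hc => he0.mn c (mR0 hc)) (fun c hc => he1.mn c (mR1 hc))
      (fun c hc d hd => he0.iso c (mR0 hc) d (mR0 hd))
      (fun c hc d hd => he1.iso c (mR1 hc) d (mR1 hd)) with h | h
    · exfalso
      apply glue
      intro r hr
      rw [← h r hr]; exact he01 r hr
    · exact h
  -- both classes are linked to `R0`
  have link0 : ∃ r ∈ R0, Λ.b (y r) (y c0) ≠ 0 := by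
    by_contra hno
    push Not at hno
    apply glue
    intro r hr
    rw [hno r hr]
    exact orth r (hR0S hr) c0 hc0 (hy r) (hy c0) (he1.mn r (mR1 hr)) mz0 (hno r hr)
  have link1 : ∃ r ∈ R0, Λ.b (y r) (y c1) ≠ 0 := by
    by_contra hno
    push Not at hno
    apply glue'
    intro r hr
    rw [hno r hr]
    exact orth r (hR0S hr) c1 hc1 (hy r) (hy c1) (he0.mn r (mR0 hr)) mz1 (hno r hr)
  -- the lift of `K ∪ R0`
  have rKR : ∀ c ∈ K ∪ R0, Rel f c := by
    intro c hc
    rcases Finset.mem_union.mp hc with h | h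
    · exact hKrel c h
    · exact hR0rel c h
  have mKl : ∀ {c}, c ∈ K → c ∈ K ∪ R0 := fun hc => Finset.mem_union_left _ hc
  have mKr : ∀ {c}, c ∈ R0 → c ∈ K ∪ R0 := fun hc => Finset.mem_union_right _ hc
  obtain ⟨κ, hκ, hκe⟩ : ∃ κ, Lift Λ Λ' f (K ∪ R0) y κ ∧ ∀ r ∈ R0, κ r = e1 r := by
    obtain ⟨κ, hκ⟩ := (HT (K ∪ R0) rKR (by
      have := wsum_union_le hf K R0; linarith)).lift hf rKR (y := y) (fun c _ => hy c)
    rcases uniq κ e1 (fun c hc => hκ.mn c (mKr hc)) (fun c hc => he1.mn c (mR1 hc))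
      (fun c hc d hd => hκ.iso c (mKr hc) d (mKr hd))
      (fun c hc d hd => he1.iso c (mR1 hc) d (mR1 hd)) with h | h
    · exact ⟨κ, hκ, h⟩
    · exact ⟨_, hκ.neg, fun r hr => by rw [h r hr, neg_neg]⟩
  have sκ : ∀ c ∈ K, κ c = α c ∨ κ c = - α c := fun c hc =>
    mn_uniq hf' (hKrel c hc) (hα.mn c (mK hc)) (hκ.mn c (mKl hc))
  set K2 := K.filter (fun c => ¬ κ c = α c) with hK2
  set K1 := K.filter (fun c => κ c = α c) with hK1
  have hK12 : ∑ c ∈ K1, f c + ∑ c ∈ K2, f c = ∑ c ∈ K, f c :=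
    Finset.sum_filter_add_sum_filter_not K _ _
  have hcase : ∑ c ∈ K2, f c < f c0 ∨ ∑ c ∈ K1, f c < f c1 := by
    by_contra hno
    push Not at hno
    linarith [hno.1, hno.2]
  rcases hcase with hw | hw
  · -- `K2` is light
    have rT : ∀ c ∈ K2 ∪ insert c1 R0, Rel f c := by
      intro c hc
      rcases Finset.mem_union.mp hc with h | h
      · exact hKrel c (Finset.mem_filter.mp h).1
      · exact hS c (s1 h)
    have m2 : ∀ {c}, c ∈ K2 → c ∈ K2 ∪ insert c1 R0 := fun hc => Finset.mem_union_left _ hc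
    have mr : ∀ {c}, c ∈ R0 → c ∈ K2 ∪ insert c1 R0 := fun hc =>
      Finset.mem_union_right _ (mR1 hc)
    have m1 : c1 ∈ K2 ∪ insert c1 R0 := Finset.mem_union_right _ (Finset.mem_insert_self _ _)
    obtain ⟨μ, hμ, hμe⟩ : ∃ μ, Lift Λ Λ' f (K2 ∪ insert c1 R0) y μ ∧ ∀ r ∈ R0, μ r = e1 r := by
      obtain ⟨μ, hμ⟩ := (HT (K2 ∪ insert c1 R0) rT (by
        have h1 := wsum_union_le hf K2 (insert c1 R0)
        have h2 := wsum_insert_le hf c1 R0
        linarith)).lift hf rT (y := y) (fun c _ => hy c)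
      rcases uniq μ e1 (fun c hc => hμ.mn c (mr hc)) (fun c hc => he1.mn c (mR1 hc))
        (fun c hc d hd => hμ.iso c (mr hc) d (mr hd))
        (fun c hc d hd => he1.iso c (mR1 hc) d (mR1 hd)) with h | h
      · exact ⟨μ, hμ, h⟩
      · exact ⟨_, hμ.neg, fun r hr => by rw [h r hr, neg_neg]⟩
    have hμ1 : μ c1 = z1 := by
      obtain ⟨r, hr, hrb⟩ := link1
      rcases mn_uniq hf' r1 mz1 (hμ.mn c1 m1) with h | h
      · exact h
      · exfalso
        have e := hμ.iso r (mr hr) c1 m1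
        rw [hμe r hr, h, Λ'.neg_right, he11 r hr] at e
        exact hrb (by linarith)
    obtain ⟨r, hr, hrb⟩ := link0
    apply hrb
    refine cyc_core (Λ' := Λ') hf y hyR r0 hyneg.ne R0 K k hKs α κ μ z0 z1
      (fun c hc d hd => hα.iso c (mK hc) d (mK hd)) hαs hα1 ?_ ?_
      (fun c hc d hd => hκ.iso c (mKl hc) d (mKl hd))
      (fun c hc r hr => hκ.iso c (mKl hc) r (mKr hr)) sκ K2
      (fun c => by rw [hK2, Finset.mem_filter])
      (fun c hc d hd => hμ.iso c (m2 hc) d (m2 hd)) ?_ ?_ ?_ r hr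
    · intro r hr; rw [hκe r hr]; exact he11 r hr
    · intro r hr
      have e := he01 r hr
      rw [hopp r hr, Λ'.neg_left] at e
      rw [hκe r hr]; linarith
    · intro c hc r hr
      rw [hκe r hr, ← hμe r hr]; exact hμ.iso c (m2 hc) r (mr hr)
    · intro c hc
      rw [← hμ1]; exact hμ.iso c (m2 hc) c1 m1
    · intro c hc
      have hcK := (Finset.mem_filter.mp hc).1
      exact mn_uniq hf' (hKrel c hcK) (hκ.mn c (mKl hcK)) (hμ.mn c (m2 hc))
  · -- `K1` is light
    have rT : ∀ c ∈ K1 ∪ insert c0 R0, Rel f c := by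
      intro c hc
      rcases Finset.mem_union.mp hc with h | h
      · exact hKrel c (Finset.mem_filter.mp h).1
      · exact hS c (s0 h)
    have m2 : ∀ {c}, c ∈ K1 → c ∈ K1 ∪ insert c0 R0 := fun hc => Finset.mem_union_left _ hc
    have mr : ∀ {c}, c ∈ R0 → c ∈ K1 ∪ insert c0 R0 := fun hc =>
      Finset.mem_union_right _ (mR0 hc)
    have m1 : c0 ∈ K1 ∪ insert c0 R0 := Finset.mem_union_right _ (Finset.mem_insert_self _ _)
    obtain ⟨μ, hμ, hμe⟩ : ∃ μ, Lift Λ Λ' f (K1 ∪ insert c0 R0) y μ ∧ ∀ r ∈ R0, μ r = e0 r := by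
      obtain ⟨μ, hμ⟩ := (HT (K1 ∪ insert c0 R0) rT (by
        have h1 := wsum_union_le hf K1 (insert c0 R0)
        have h2 := wsum_insert_le hf c0 R0
        linarith)).lift hf rT (y := y) (fun c _ => hy c)
      rcases uniq μ e0 (fun c hc => hμ.mn c (mr hc)) (fun c hc => he0.mn c (mR0 hc))
        (fun c hc d hd => hμ.iso c (mr hc) d (mr hd))
        (fun c hc d hd => he0.iso c (mR0 hc) d (mR0 hd)) with h | h
      · exact ⟨μ, hμ, h⟩
      · exact ⟨_, hμ.neg, fun r hr => by rw [h r hr, neg_neg]⟩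
    have hμ1 : μ c0 = z0 := by
      obtain ⟨r, hr, hrb⟩ := link0
      rcases mn_uniq hf' r0 mz0 (hμ.mn c0 m1) with h | h
      · exact h
      · exfalso
        have e := hμ.iso r (mr hr) c0 m1
        rw [hμe r hr, h, Λ'.neg_right, he01 r hr] at e
        exact hrb (by linarith)
    obtain ⟨r, hr, hrb⟩ := link1
    apply hrb
    have hκ' := hκ.neg
    have hκe' : ∀ r ∈ R0, - κ r = e0 r := fun r hr => by rw [hopp r hr, hκe r hr]
    refine cyc_core (Λ' := Λ') hf y hyR r1 (c1 := c0) (by rw [Λ.symm]; exact hyneg.ne) R0 K k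
      (by rw [hKs, add_comm]) α (fun c => - κ c) μ z1 z0
      (fun c hc d hd => hα.iso c (mK hc) d (mK hd)) (by rw [hαs, add_comm]) hα0 ?_ ?_
      (fun c hc d hd => hκ'.iso c (mKl hc) d (mKl hd))
      (fun c hc r hr => hκ'.iso c (mKl hc) r (mKr hr)) ?_ K1 ?_
      (fun c hc d hd => hμ.iso c (m2 hc) d (m2 hd)) ?_ ?_ ?_ r hr
    · intro r hr; rw [hκe' r hr]; exact he01 r hr
    · intro r hr
      rw [Λ'.neg_left, hκe r hr, he11 r hr]
    · intro c hc
      rcases sκ c hc with h | h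
      · right; rw [h]
      · left; rw [h, neg_neg]
    · intro c
      rw [hK1, Finset.mem_filter]
      constructor
      · rintro ⟨h, h'⟩
        refine ⟨h, ?_⟩
        intro h2
        rw [h'] at h2
        have h3 : α c + α c = 0 := by
          nth_rewrite 1 [← h2]; exact neg_add_cancel _
        have h4 := Λ'.double_eq_zero h3
        have h5 := (hKrel c h).1
        apply h5
        rw [← (hα.mn c (mK h)).1, h4, map_zero]
      · rintro ⟨h, h'⟩
        refine ⟨h, ?_⟩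
        rcases sκ c h with h2 | h2
        · exact h2
        · exact absurd (by rw [h2, neg_neg]) h'
    · intro c hc r hr
      rw [hκe' r hr, ← hμe r hr]; exact hμ.iso c (m2 hc) r (mr hr)
    · intro c hc
      rw [← hμ1]; exact hμ.iso c (m2 hc) c0 m1
    · intro c hc
      have hcK := (Finset.mem_filter.mp hc).1
      rcases mn_uniq hf' (hKrel c hcK) (hκ.mn c (mKl hcK)) (hμ.mn c (m2 hc)) with h | h
      · right; rw [h, neg_neg]
      · left; exact h

end Pool.Agent.L7h84.Vo
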