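import Pool.Agent.L7h84.Vo.Cycle
import Pool.Agent.K7.H30.VoF

set_option autoImplicit false
set_option linter.unusedSectionVars false

/-!
# Lattices with the same vonorms are isometric
-/

namespace Pool.Agent.L7h84.Vo

open Pool.Agent.K7.H30.Vo
open Matrix

section abs

variable {L L' V : Type} [AddCommGroup L] [AddCommGroup L'] [AddCommGroup V] [Module (ZMod 2) V]
  {Λ : Lat L V} {Λ' : Lat L' V} {f : V → ℝ}

/-- Every set of relevant classes is tame. -/
theorem all_tame [Finite V] (hf : IsVo Λ f) (hf' : IsVo Λ' f) :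
    ∀ S : Finset V, (∀ c ∈ S, Rel f c) → Tame Λ Λ' f S := by
  classical
  have := Fintype.ofFinite V
  by_contra hno
  push Not at hno
  obtain ⟨S0, hS0, hS0'⟩ := hno
  have hne : ((Finset.univ : Finset (Finset V)).filter
      (fun S => (∀ c ∈ S, Rel f c) ∧ ¬ Tame Λ Λ' f S)).Nonempty :=
    ⟨S0, Finset.mem_filter.mpr ⟨Finset.mem_univ _, hS0, hS0'⟩⟩
  obtain ⟨S, hS, hmin⟩ := Finset.exists_min_image _ (fun S : Finset V => ∑ c ∈ S, f c) hne
  obtain ⟨_, hSr, hSn⟩ := Finset.mem_filter.mp hS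
  have HT : ∀ T : Finset V, (∀ c ∈ T, Rel f c) → ∑ c ∈ T, f c < ∑ c ∈ S, f c →
      Tame Λ Λ' f T := by
    intro T hT hw
    by_contra hn
    have := hmin T (Finset.mem_filter.mpr ⟨Finset.mem_univ _, hT, hn⟩)
    exact absurd hw (not_lt.mpr this)
  by_cases h3 : 3 ≤ S.card
  · exact cycle_false hf hf' hSr hSn h3 HT
  push Not at h3
  choose y hy using hf.ex
  choose z hz using hf'.ex
  have hy : ∀ c, Mn Λ f c (y c) := hy
  have hz : ∀ c, Mn Λ' f c (z c) := hz
  by_cases h2 : S.card = 2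
  · obtain ⟨c0, c1, hc, hSe⟩ := Finset.card_eq_two.mp h2
    apply hSn
    rw [hSe]
    apply pair_tame_of hf hf' (hSr c0 (by rw [hSe]; simp)) (hSr c1 (by rw [hSe]; simp)) hc
    intro T hT hw
    apply HT T hT
    rw [hSe, Finset.sum_pair hc]
    exact hw
  · have h1 : S.card ≤ 1 := by omega
    apply hSn
    refine Tame.mk' y z (fun c _ => hy c) (fun c _ => hz c) ?_
    intro c hc d hd hcd
    exact absurd (Finset.card_le_one.mp h1 c hc d hd) hcd

/-- Two lattices with the same vonorm function are isometric. -/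
theorem exists_isometry' [Finite V] (hf : IsVo Λ f) (hf' : IsVo Λ' f) :
    ∃ e : L ≃+ L', ∀ x, Λ'.q (e x) = Λ.q x := by
  classical
  have := Fintype.ofFinite V
  obtain ⟨R, hR⟩ : ∃ R : Finset V, ∀ c, c ∈ R ↔ Rel f c :=
    ⟨Finset.univ.filter (fun c => Rel f c), fun c => by simp⟩
  choose y hy using hf.ex
  have hy : ∀ c, Mn Λ f c (y c) := hy
  obtain ⟨g₀, hg₀⟩ := (all_tame hf hf' R (fun c hc => (hR c).mp hc)).lift hf
    (fun c hc => (hR c).mp hc) (y := y) (fun c _ => hy c)
  -- every vector is a combination over `R`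
  have ext : ∀ {M : Type} [AddCommGroup M] (h : V → M) (S : Finset V) (k : V → ℤ), S ⊆ R →
      comb h R (fun c => if c ∈ S then k c else 0) = comb h S k := by
    intro M _ h S k hSR
    unfold comb
    rw [← Finset.sum_subset hSR]
    · apply Finset.sum_congr rfl
      intro c hc
      show (if c ∈ S then k c else 0) • h c = k c • h c
      rw [if_pos hc]
    · intro c _ hc
      show (if c ∈ S then k c else 0) • h c = 0
      rw [if_neg hc, zero_smul]
  have gen : ∀ x : L, ∃ k : V → ℤ, comb y R k = x := by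
    intro x
    obtain ⟨S, k, h1, h2, _⟩ := decomp hf y (fun c _ => hy c) x
    exact ⟨_, (ext y S k (fun c hc => (hR c).mpr (h1 c hc))).trans h2⟩
  have gen' : ∀ x : L', ∃ k : V → ℤ, comb g₀ R k = x := by
    intro x
    obtain ⟨S, k, h1, h2, _⟩ := decomp hf' g₀ (fun c hc => hg₀.mn c ((hR c).mpr hc)) x
    exact ⟨_, (ext g₀ S k (fun c hc => (hR c).mpr (h1 c hc))).trans h2⟩
  choose K hK using gen
  have qc : ∀ k : V → ℤ, Λ'.q (comb g₀ R k) = Λ.q (comb y R k) := fun k =>
    comb_iso Λ Λ' (fun c hc d hd => hg₀.iso c hc d hd) k k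
  have csub : ∀ {M : Type} [AddCommGroup M] (h : V → M) (k l : V → ℤ),
      comb h R (k - l) = comb h R k - comb h R l := by
    intro M _ h k l
    unfold comb
    rw [← Finset.sum_sub_distrib]
    apply Finset.sum_congr rfl
    intro c _
    rw [Pi.sub_apply, sub_smul]
  have cadd : ∀ {M : Type} [AddCommGroup M] (h : V → M) (k l : V → ℤ),
      comb h R (k + l) = comb h R k + comb h R l := by
    intro M _ h k l
    unfold comb
    rw [← Finset.sum_add_distrib]
    apply Finset.sum_congr rfl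
    intro c _
    rw [Pi.add_apply, add_smul]
  have well : ∀ k l : V → ℤ, comb y R k = comb y R l → comb g₀ R k = comb g₀ R l := by
    intro k l h
    have h1 : Λ'.q (comb g₀ R (k - l)) = 0 := by
      rw [qc, csub, h, sub_self, Λ.q_zero]
    have h2 := Λ'.eq_zero_of_q (le_of_eq h1)
    rw [csub] at h2
    exact sub_eq_zero.mp h2
  let φ : L →+ L' := AddMonoidHom.mk' (fun x => comb g₀ R (K x)) (by
    intro a b
    show comb g₀ R (K (a + b)) = comb g₀ R (K a) + comb g₀ R (K b)
    rw [← cadd]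
    apply well
    rw [hK, cadd, hK, hK])
  have hφ : ∀ x, φ x = comb g₀ R (K x) := fun _ => rfl
  have hq : ∀ x, Λ'.q (φ x) = Λ.q x := by
    intro x; rw [hφ, qc, hK]
  have hinj : Function.Injective φ := by
    rw [injective_iff_map_eq_zero]
    intro x hx
    apply Λ.eq_zero_of_q
    rw [← hq, hx, Λ'.q_zero]
  have hsurj : Function.Surjective φ := by
    intro x
    obtain ⟨k, hk⟩ := gen' x
    refine ⟨comb y R k, ?_⟩
    rw [hφ, ← hk]
    apply well
    rw [hK]
  exact ⟨AddEquiv.ofBijective φ ⟨hinj, hsurj⟩, hq⟩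

end abs

/-- Main theorem for matrices. -/
theorem main_matrix' {n : ℕ} {A B : Matrix (Fin n) (Fin n) ℝ} (hA : A.PosDef) (hB : B.PosDef)
    (h : ∀ S : Finset (Fin n),
        (⨅ x : Fin n → ℤ,
          dotProduct (fun i => (x i : ℝ) - (if i ∈ S then (1/2 : ℝ) else 0))
            (A.mulVec (fun i => (x i : ℝ) - (if i ∈ S then (1/2 : ℝ) else 0))))
        = (⨅ x : Fin n → ℤ,
          dotProduct (fun i => (x i : ℝ) - (if i ∈ S then (1/2 : ℝ) else 0))
            (B.mulVec (fun i => (x i : ℝ) - (if i ∈ S then (1/2 : ℝ) else 0))))) :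
    ∃ U : Matrix (Fin n) (Fin n) ℤ, IsUnit U.det ∧
        B = (U.map (Int.cast : ℤ → ℝ))ᵀ * A * U.map (Int.cast : ℤ → ℝ) := by
  obtain ⟨M⟩ := (latOf hA).exists_minSys
  obtain ⟨N⟩ := (latOf hB).exists_minSys
  have hf : ∀ v, N.f v = M.f v := by
    intro v
    obtain ⟨S, rfl⟩ := cls_surj v
    have h1 := h S
    rw [tcvp_eq hA M S, tcvp_eq hB N S] at h1
    linarith
  have vA : IsVo (latOf hA) M.f := ⟨fun x => M.f_le x, fun c => ⟨M.y c, M.pr_y c, rfl⟩⟩
  have vB : IsVo (latOf hB) M.f := ⟨fun x => by rw [← hf]; exact N.f_le x,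
    fun c => ⟨N.y c, N.pr_y c, by rw [← hf]; rfl⟩⟩
  obtain ⟨e, he⟩ := exists_isometry' vA vB
  set g : (Fin n → ℤ) ≃ₗ[ℤ] (Fin n → ℤ) := e.symm.toIntLinearEquiv with hg
  have hgq : ∀ z, (latOf hA).q (g z) = (latOf hB).q z := by
    intro z
    have h1 := he (e.symm z)
    rw [e.apply_symm_apply] at h1
    exact h1.symm
  have hgadd : ∀ x y, g (x + y) = g x + g y := fun x y => map_add g x y
  have hgb : ∀ x y, (latOf hB).b x y = (latOf hA).b (g x) (g y) := by
    intro x y
    have h1 := hgq (x + y)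
    rw [hgadd, Lat.q_add, Lat.q_add, hgq, hgq] at h1
    linarith
  refine ⟨LinearMap.toMatrix' (g : (Fin n → ℤ) →ₗ[ℤ] (Fin n → ℤ)), ?_, ?_⟩
  · rw [LinearMap.det_toMatrix']
    exact LinearEquiv.isUnit_det' g
  · ext i j
    have h1 := hgb (Pi.single i 1) (Pi.single j 1)
    have hc : ∀ k : Fin n, cv (Pi.single k 1 : Fin n → ℤ) = Pi.single k 1 := by
      intro k
      funext l
      unfold cv
      by_cases hkl : l = k
      · subst hkl; simp
      · simp [hkl]
    have hB1 : (latOf hB).b (Pi.single i 1) (Pi.single j 1) = B i j := by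
      show rb B (cv (Pi.single i 1)) (cv (Pi.single j 1)) = B i j
      rw [hc, hc]
      unfold rb
      rw [single_one_dotProduct, mulVec_single_one]
      rfl
    have hU : ∀ k : Fin n, cv (g (Pi.single k 1)) =
        ((LinearMap.toMatrix' (g : (Fin n → ℤ) →ₗ[ℤ] (Fin n → ℤ))).map
          (Int.cast : ℤ → ℝ)).col k := by
      intro k
      funext l
      simp [cv, LinearMap.toMatrix'_apply]
    have hA1 : (latOf hA).b (g (Pi.single i 1)) (g (Pi.single j 1)) =
        (((LinearMap.toMatrix' (g : (Fin n → ℤ) →ₗ[ℤ] (Fin n → ℤ))).map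
          (Int.cast : ℤ → ℝ))ᵀ * A * ((LinearMap.toMatrix' (g : (Fin n → ℤ) →ₗ[ℤ] (Fin n → ℤ))).map
          (Int.cast : ℤ → ℝ))) i j := by
      show rb A (cv (g (Pi.single i 1))) (cv (g (Pi.single j 1))) = _
      rw [hU, hU]
      unfold rb
      rw [Matrix.mul_assoc, Matrix.mul_apply]
      rfl
    rw [← hB1, h1, hA1]

end Pool.Agent.L7h84.Vo
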