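import Pool.Agent.L7h84.Vo.Zed

set_option autoImplicit false
set_option linter.unusedSectionVars false

/-!
# A non-tame set of least weight is not a pair
-/

namespace Pool.Agent.L7h84.Vo

open Pool.Agent.K7.H30.Vo

variable {L L' V : Type} [AddCommGroup L] [AddCommGroup L'] [AddCommGroup V] [Module (ZMod 2) V]
  {Λ : Lat L V} {Λ' : Lat L' V} {f : V → ℝ}

theorem pair_thm (hf : IsVo Λ f) (hf' : IsVo Λ' f) {ϑ : ℝ}
    (HT : ∀ S : Finset V, (∀ c ∈ S, Rel f c) → ∑ c ∈ S, f c < ϑ → Tame Λ Λ' f S)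
    (y : V → L) (hy : ∀ c, Rel f c → Mn Λ f c (y c)) {c0 c1 : V} (h0 : Rel f c0) (h1 : Rel f c1)
    (hϑ : f c0 + f c1 = ϑ) {x : ℝ} (hx : |Λ.b (y c0) (y c1)| < x) (ha : f (c0 + c1) ≤ ϑ - 2 * x)
    (hle : f c1 ≤ f c0) :
    ∃ z0 z1 : L', Mn Λ' f c0 z0 ∧ Mn Λ' f c1 z1 ∧ Λ'.b z0 z1 = Λ.b (y c0) (y c1) := by
  obtain ⟨hx1, hx2⟩ := abs_lt.mp hx
  have m0 := hy c0 h0
  have m1 := hy c1 h1
  obtain ⟨m, hm1, hm2, hm3⟩ : ∃ m, Λ.pr m = c0 + c1 ∧ Λ.q m = f (c0 + c1) ∧ 0 ≤ Λ.b m (y c1) := by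
    obtain ⟨m, hm1, hm2⟩ := hf.ex (c0 + c1)
    rcases le_total 0 (Λ.b m (y c1)) with h | h
    · exact ⟨m, hm1, hm2, h⟩
    · exact ⟨-m, by rw [map_neg, neg_eq, hm1], by rw [Λ.q_neg, hm2], by
        rw [Λ.neg_left]; linarith⟩
  obtain ⟨p0, hp0⟩ := Λ.ker (y c0 + y c1 + m) (by
    rw [map_add, map_add, m0.1, m1.1, hm1, self_add])
  have em : m = p0 + p0 - y c0 - y c1 := by rw [← hp0]; abel
  set Y0 := y c0 with hY0
  set Y1 := y c1 with hY1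
  have b00 : Λ.b Y0 Y0 = f c0 := m0.2
  have b11 : Λ.b Y1 Y1 = f c1 := m1.2
  have bmm : Λ.b m m = f (c0 + c1) := hm2
  have s01 : Λ.b Y1 Y0 = Λ.b Y0 Y1 := Λ.symm _ _
  have s0m : Λ.b Y0 m = Λ.b m Y0 := Λ.symm _ _
  have s1m : Λ.b Y1 m = Λ.b m Y1 := Λ.symm _ _
  have n0 : 4 * Λ.q p0 = f c0 + f c1 + f (c0 + c1) + 2 * Λ.b Y0 Y1 + 2 * Λ.b m Y0 + 2 * Λ.b m Y1 := by
    have e : Λ.q (p0 + p0) = 4 * Λ.q p0 := by
      rw [Λ.q_add]; have : Λ.b p0 p0 = Λ.q p0 := rfl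
      rw [this]; ring
    rw [← e, ← hp0]
    unfold Lat.q
    simp only [Λ.add_left, Λ.add_right, b00, b11, bmm, s01, s0m, s1m]
    ring
  have d1 : 2 * Λ.b p0 m = Λ.b m Y0 + Λ.b m Y1 + f (c0 + c1) := by
    have e : Λ.b (p0 + p0) m = 2 * Λ.b p0 m := by rw [Λ.add_left]; ring
    rw [← e, ← hp0, Λ.add_left, Λ.add_left, bmm, s0m, s1m]
  have d2 : 2 * Λ.b p0 Y1 = Λ.b Y0 Y1 + f c1 + Λ.b m Y1 := by
    have e : Λ.b (p0 + p0) Y1 = 2 * Λ.b p0 Y1 := by rw [Λ.add_left]; ring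
    rw [← e, ← hp0, Λ.add_left, Λ.add_left, b11]
  have d3 : 2 * Λ.b p0 Y0 = Λ.b Y0 Y1 + f c0 + Λ.b m Y0 := by
    have e : Λ.b (p0 + p0) Y0 = 2 * Λ.b p0 Y0 := by rw [Λ.add_left]; ring
    rw [← e, ← hp0, Λ.add_left, Λ.add_left, b00, s01]
    ring
  have n1 : Λ.q (p0 - m) = Λ.q p0 - Λ.b m Y0 - Λ.b m Y1 := by
    rw [Λ.q_sub, hm2]; linarith
  have n2 : Λ.q (p0 - Y1) = Λ.q p0 - Λ.b Y0 Y1 - Λ.b m Y1 := by
    rw [Λ.q_sub]; have : Λ.q Y1 = f c1 := m1.2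
    rw [this]; linarith
  have n3 : Λ.q (p0 - Y0) = Λ.q p0 - Λ.b Y0 Y1 - Λ.b m Y0 := by
    rw [Λ.q_sub]; have : Λ.q Y0 = f c0 := m0.2
    rw [this]; linarith
  by_cases hB : f c0 ≤ Λ.q (p0 - m)
  · -- case B
    obtain ⟨z1, z0, hz1, hz0, hz⟩ := zed hf hf' HT y hy h1 h0 (p := p0) (q := -(p0 - Y1))
      (by rw [← hY1]; abel)
      (by
        have e : y c0 + -(p0 - Y1) - p0 = - m := by rw [em, ← hY0]; abel
        rw [e, Λ.q_neg, hm2, add_comm])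
      (by rw [Λ.q_neg]; linarith) (by linarith) (by rw [Λ.q_neg]; linarith)
    exact ⟨z0, z1, hz0, hz1, by rw [Λ'.symm, hz, Λ.symm]⟩
  push Not at hB
  by_cases hC : f c0 ≤ Λ.q (p0 - Y1)
  · -- case C
    obtain ⟨z1, z0, hz1, hz0, hz⟩ := zed hf hf' HT y hy h1 h0 (p := p0 - m) (q := p0 - Y0)
      (by rw [em, ← hY1]; abel)
      (by
        have e : y c0 + (p0 - Y0) - (p0 - m) = m := by rw [← hY0]; abel
        rw [e, hm2, add_comm])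
      (by linarith) (by linarith) (by linarith)
    exact ⟨z0, z1, hz0, hz1, by rw [Λ'.symm, hz, Λ.symm]⟩
  push Not at hC
  exact zed hf hf' HT y hy h0 h1 (p := p0 - m) (q := p0 - Y1)
    (by rw [em, ← hY0]; abel)
    (by
      have e : y c1 + (p0 - Y1) - (p0 - m) = m := by rw [← hY1]; abel
      rw [e, hm2])
    (by linarith) (by linarith) (by linarith)

theorem pair_thm' (hf : IsVo Λ f) (hf' : IsVo Λ' f) {ϑ : ℝ}
    (HT : ∀ S : Finset V, (∀ c ∈ S, Rel f c) → ∑ c ∈ S, f c < ϑ → Tame Λ Λ' f S)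
    (y : V → L) (hy : ∀ c, Rel f c → Mn Λ f c (y c)) {c0 c1 : V} (h0 : Rel f c0) (h1 : Rel f c1)
    (hϑ : f c0 + f c1 = ϑ) {x : ℝ} (hx : |Λ.b (y c0) (y c1)| < x) (ha : f (c0 + c1) ≤ ϑ - 2 * x) :
    ∃ z0 z1 : L', Mn Λ' f c0 z0 ∧ Mn Λ' f c1 z1 ∧ Λ'.b z0 z1 = Λ.b (y c0) (y c1) := by
  rcases le_total (f c1) (f c0) with h | h
  · exact pair_thm hf hf' HT y hy h0 h1 hϑ hx ha h
  · obtain ⟨z1, z0, hz1, hz0, hz⟩ := pair_thm hf hf' HT y hy h1 h0 (by linarith)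
      (by rw [Λ.symm]; exact hx) (by rw [add_comm]; exact ha) h
    exact ⟨z0, z1, hz0, hz1, by rw [Λ'.symm, hz, Λ.symm]⟩

lemma f_add_le (hf : IsVo Λ f) {c0 c1 : V} {y0 y1 : L} (h0 : Mn Λ f c0 y0) (h1 : Mn Λ f c1 y1) :
    f (c0 + c1) ≤ f c0 + f c1 - 2 * |Λ.b y0 y1| := by
  have l1 := hf.le (y0 + y1)
  have l2 := hf.le (y0 - y1)
  rw [map_add, h0.1, h1.1, Λ.q_add, h0.2, h1.2] at l1
  rw [map_sub, h0.1, h1.1, sub_eq_add', Λ.q_sub, h0.2, h1.2] at l2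
  rcases abs_cases (Λ.b y0 y1) with ⟨h, _⟩ | ⟨h, _⟩ <;> rw [h] <;> linarith

/-- Pairs of relevant classes of least weight are tame. -/
theorem pair_tame_of [DecidableEq V] (hf : IsVo Λ f) (hf' : IsVo Λ' f) {c0 c1 : V}
    (h0 : Rel f c0) (h1 : Rel f c1) (hne : c0 ≠ c1)
    (HT : ∀ S : Finset V, (∀ c ∈ S, Rel f c) → ∑ c ∈ S, f c < f c0 + f c1 → Tame Λ Λ' f S) :
    Tame Λ Λ' f {c0, c1} := by
  choose y hy using hf.ex
  choose z hz using hf'.ex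
  have hy : ∀ c, Mn Λ f c (y c) := hy
  have hz : ∀ c, Mn Λ' f c (z c) := hz
  rcases lt_trichotomy |Λ.b (y c0) (y c1)| |Λ'.b (z c0) (z c1)| with h | h | h
  · obtain ⟨z0, z1, hz0, hz1, e⟩ := pair_thm' hf hf' HT y (fun c _ => hy c) h0 h1 rfl h
      (f_add_le hf' (hz c0) (hz c1))
    exact pair_tame (hy c0) (hy c1) hz0 hz1 hne e
  · rcases abs_eq_abs.mp h with h' | h'
    · exact pair_tame (hy c0) (hy c1) (hz c0) (hz c1) hne h'.symm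
    · exact pair_tame (hy c0) (hy c1) (hz c0).neg (hz c1) hne (by rw [Λ'.neg_left, h'])
  · obtain ⟨z0, z1, hz0, hz1, e⟩ := pair_thm' hf' hf (fun S hS hw => (HT S hS hw).swap) z
      (fun c _ => hz c) h0 h1 rfl h (f_add_le hf (hy c0) (hy c1))
    exact (pair_tame (hz c0) (hz c1) hz0 hz1 hne e).swap

end Pool.Agent.L7h84.Vo
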