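import Pool.Agent.L7h84.Vo.Basic

set_option autoImplicit false
set_option linter.unusedSectionVars false

/-!
# Tame sets of classes

Two lattices `Λ`, `Λ'` with the same vonorm function `f` are given.  A set `S` of relevant classes
is tame if the minimal vectors of the classes of `S` in the two lattices have, for a suitable
choice of signs, the same inner products.
-/

namespace Pool.Agent.L7h84.Vo

open Pool.Agent.K7.H30.Vo

variable {L L' V : Type} [AddCommGroup L] [AddCommGroup L'] [AddCommGroup V] [Module (ZMod 2) V]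

/-- `g` is a coherent lift of `y` on `S`. -/
structure Lift (Λ : Lat L V) (Λ' : Lat L' V) (f : V → ℝ) (S : Finset V) (y : V → L)
    (g : V → L') : Prop where
  mn : ∀ c ∈ S, Mn Λ' f c (g c)
  iso : ∀ c ∈ S, ∀ d ∈ S, Λ'.b (g c) (g d) = Λ.b (y c) (y d)

/-- tame sets of classes -/
def Tame (Λ : Lat L V) (Λ' : Lat L' V) (f : V → ℝ) (S : Finset V) : Prop :=
  ∃ (y : V → L) (g : V → L'), (∀ c ∈ S, Mn Λ f c (y c)) ∧ Lift Λ Λ' f S y g

variable {Λ : Lat L V} {Λ' : Lat L' V} {f : V → ℝ}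

lemma Lift.neg {S : Finset V} {y : V → L} {g : V → L'} (h : Lift Λ Λ' f S y g) :
    Lift Λ Λ' f S y (fun c => - g c) := by
  refine ⟨fun c hc => (h.mn c hc).neg, ?_⟩
  intro c hc d hd
  rw [Λ'.neg_left, Λ'.neg_right, neg_neg, h.iso c hc d hd]

lemma Lift.mono {S T : Finset V} {y : V → L} {g : V → L'} (h : Lift Λ Λ' f S y g) (hT : T ⊆ S) :
    Lift Λ Λ' f T y g :=
  ⟨fun c hc => h.mn c (hT hc), fun c hc d hd => h.iso c (hT hc) d (hT hd)⟩

lemma Tame.swap {S : Finset V} (h : Tame Λ Λ' f S) : Tame Λ' Λ f S := by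
  obtain ⟨y, g, h1, h2⟩ := h
  exact ⟨g, y, h2.mn, h1, fun c hc d hd => (h2.iso c hc d hd).symm⟩

lemma Tame.lift (hf : IsVo Λ f) {S : Finset V} (hS : ∀ c ∈ S, Rel f c) (h : Tame Λ Λ' f S)
    {y : V → L} (hy : ∀ c ∈ S, Mn Λ f c (y c)) : ∃ g, Lift Λ Λ' f S y g := by
  classical
  obtain ⟨y0, g0, h1, h2⟩ := h
  refine ⟨fun c => if y c = y0 c then g0 c else - g0 c, ?_, ?_⟩
  · intro c hc
    split_ifs
    · exact h2.mn c hc
    · exact (h2.mn c hc).neg
  · have key : ∀ c ∈ S, y c = y0 c ∨ (¬ y c = y0 c ∧ y c = - y0 c) := by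
      intro c hc
      by_cases h : y c = y0 c
      · exact Or.inl h
      · rcases mn_uniq hf (hS c hc) (h1 c hc) (hy c hc) with h3 | h3
        · exact absurd h3 h
        · exact Or.inr ⟨h, h3⟩
    intro c hc d hd
    have e := h2.iso c hc d hd
    rcases key c hc with h3 | ⟨h3, h3'⟩ <;> rcases key d hd with h4 | ⟨h4, h4'⟩
    · simp only [if_pos h3, if_pos h4]; rw [e, h3, h4]
    · simp only [if_pos h3, if_neg h4]; rw [Λ'.neg_right, e, h3, h4', Λ.neg_right]
    · simp only [if_neg h3, if_pos h4]; rw [Λ'.neg_left, e, h3', h4, Λ.neg_left]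
    · simp only [if_neg h3, if_neg h4]
      rw [Λ'.neg_left, Λ'.neg_right, e, h3', h4', Λ.neg_left, Λ.neg_right]

lemma Tame.lift_norm (hf : IsVo Λ f) (hf' : IsVo Λ' f) {S : Finset V} (hS : ∀ c ∈ S, Rel f c)
    (h : Tame Λ Λ' f S) {y : V → L} (hy : ∀ c ∈ S, Mn Λ f c (y c)) {c1 : V} (hc1 : c1 ∈ S)
    {z : L'} (hz : Mn Λ' f c1 z) : ∃ g, Lift Λ Λ' f S y g ∧ g c1 = z := by
  obtain ⟨g, hg⟩ := h.lift hf hS hy
  rcases mn_uniq hf' (hS c1 hc1) hz (hg.mn c1 hc1) with h1 | h1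
  · exact ⟨g, hg, h1⟩
  · exact ⟨_, hg.neg, by rw [h1, neg_neg]⟩

lemma wsum_union_le [DecidableEq V] (hf : IsVo Λ f) (S T : Finset V) :
    ∑ c ∈ S ∪ T, f c ≤ ∑ c ∈ S, f c + ∑ c ∈ T, f c := by
  have h3 : ∑ c ∈ S ∪ T, f c + ∑ c ∈ S ∩ T, f c = ∑ c ∈ S, f c + ∑ c ∈ T, f c :=
    Finset.sum_union_inter
  have h4 : 0 ≤ ∑ c ∈ S ∩ T, f c := Finset.sum_nonneg (fun c _ => hf.nonneg c)
  linarith

lemma wsum_insert_le [DecidableEq V] (hf : IsVo Λ f) (c : V) (T : Finset V) :
    ∑ c ∈ insert c T, f c ≤ f c + ∑ c ∈ T, f c := by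
  have := wsum_union_le hf {c} T
  rw [Finset.sum_singleton] at this
  exact this

/-- Two relevant classes whose minimal vectors have the same inner product up to sign. -/
lemma pair_tame [DecidableEq V] {c0 c1 : V} {y0 y1 : L} {z0 z1 : L'}
    (hy0 : Mn Λ f c0 y0) (hy1 : Mn Λ f c1 y1) (hz0 : Mn Λ' f c0 z0)
    (hz1 : Mn Λ' f c1 z1) (hne : c0 ≠ c1) (h : Λ'.b z0 z1 = Λ.b y0 y1) : Tame Λ Λ' f {c0, c1} := by
  refine ⟨fun c => if c = c0 then y0 else y1, fun c => if c = c0 then z0 else z1, ?_, ?_, ?_⟩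
  · intro c hc
    simp only [Finset.mem_insert, Finset.mem_singleton] at hc
    rcases hc with rfl | rfl
    · simp only [if_true]; exact hy0
    · simp only [if_neg (Ne.symm hne)]; exact hy1
  · intro c hc
    simp only [Finset.mem_insert, Finset.mem_singleton] at hc
    rcases hc with rfl | rfl
    · simp only [if_true]; exact hz0
    · simp only [if_neg (Ne.symm hne)]; exact hz1
  · intro c hc d hd
    simp only [Finset.mem_insert, Finset.mem_singleton] at hc hd
    rcases hc with rfl | rfl <;> rcases hd with rfl | rfl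
    · simp only [if_true]
      exact hz0.2.trans hy0.2.symm
    · simp only [if_true, if_neg (Ne.symm hne)]; exact h
    · simp only [if_true, if_neg (Ne.symm hne)]; rw [Λ'.symm, h, Λ.symm]
    · simp only [if_neg (Ne.symm hne)]
      exact hz1.2.trans hy1.2.symm

end Pool.Agent.L7h84.Vo
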