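import Pool.Agent.L7h84.Vo.Tame

set_option autoImplicit false
set_option linter.unusedSectionVars false

/-!
# The pair lemma
-/

namespace Pool.Agent.L7h84.Vo

open Pool.Agent.K7.H30.Vo

variable {L L' V : Type} [AddCommGroup L] [AddCommGroup L'] [AddCommGroup V] [Module (ZMod 2) V]
  {Λ : Lat L V} {Λ' : Lat L' V} {f : V → ℝ}

lemma comb_neg_left {S : Finset V} {g : V → L} {g' : V → L'} {z : L} {z' : L'}
    (H : ∀ c ∈ S, Λ'.b (g' c) z' = - Λ.b (g c) z) (k : V → ℤ) :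
    Λ'.b (comb g' S k) z' = - Λ.b (comb g S k) z := by
  rw [b_comb_left, b_comb_left, ← Finset.sum_neg_distrib]
  apply Finset.sum_congr rfl
  intro c hc
  rw [H c hc]; ring

/-- The core computation. -/
theorem zed_core (hf' : IsVo Λ' f) {y0 y1 a b c d : L} {A B C D z1 : L'} {c0 c1 : V}
    (hrv : RV Λ y0) (hy0 : y0 = a + b + (c + d))
    (hp : Λ'.pr (A + B + (C + D)) = c0) (hp1 : Λ'.pr z1 = c1)
    (hm : Λ.q (y1 + (c + d) - (a + b)) ≤ f (c0 + c1))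
    (q1 : Λ'.q z1 = Λ.q y1)
    (qA : Λ'.b A A = Λ.b a a) (qB : Λ'.b B B = Λ.b b b)
    (qC : Λ'.b C C = Λ.b c c) (qD : Λ'.b D D = Λ.b d d)
    (eAB : Λ'.b A B = 0) (eab : Λ.b a b = 0)
    (eCD : Λ'.b C D = 0) (ecd : Λ.b c d = 0)
    (eAC : Λ'.b A C = Λ.b a c) (eAD : Λ'.b A D = Λ.b a d)
    (eBC : Λ'.b B C = Λ.b b c) (eBD : Λ'.b B D = Λ.b b d)
    (e1A : Λ'.b A z1 = Λ.b a y1) (e1B : Λ'.b B z1 = - Λ.b b y1)
    (e1C : Λ'.b C z1 = Λ.b c y1) (e1D : Λ'.b D z1 = - Λ.b d y1) :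
    Λ'.q (A + B + (C + D)) = Λ.q y0 ∧
      (Λ'.b (A + B + (C + D)) z1 = Λ.b y0 y1 ∨ Λ'.b (A + B + (C + D)) z1 = - Λ.b y0 y1) := by
  have s1 : Λ'.b B A = 0 := by rw [Λ'.symm, eAB]
  have s1' : Λ.b b a = 0 := by rw [Λ.symm, eab]
  have s2 : Λ'.b D C = 0 := by rw [Λ'.symm, eCD]
  have s2' : Λ.b d c = 0 := by rw [Λ.symm, ecd]
  have s3 : Λ'.b C A = Λ.b a c := by rw [Λ'.symm, eAC]
  have s3' : Λ.b c a = Λ.b a c := by rw [Λ.symm]
  have s4 : Λ'.b D A = Λ.b a d := by rw [Λ'.symm, eAD]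
  have s4' : Λ.b d a = Λ.b a d := by rw [Λ.symm]
  have s5 : Λ'.b C B = Λ.b b c := by rw [Λ'.symm, eBC]
  have s5' : Λ.b c b = Λ.b b c := by rw [Λ.symm]
  have s6 : Λ'.b D B = Λ.b b d := by rw [Λ'.symm, eBD]
  have s6' : Λ.b d b = Λ.b b d := by rw [Λ.symm]
  have t1 : Λ'.b z1 A = Λ.b a y1 := by rw [Λ'.symm, e1A]
  have t1' : Λ.b y1 a = Λ.b a y1 := by rw [Λ.symm]
  have t2 : Λ'.b z1 B = - Λ.b b y1 := by rw [Λ'.symm, e1B]
  have t2' : Λ.b y1 b = Λ.b b y1 := by rw [Λ.symm]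
  have t3 : Λ'.b z1 C = Λ.b c y1 := by rw [Λ'.symm, e1C]
  have t3' : Λ.b y1 c = Λ.b c y1 := by rw [Λ.symm]
  have t4 : Λ'.b z1 D = - Λ.b d y1 := by rw [Λ'.symm, e1D]
  have t4' : Λ.b y1 d = Λ.b d y1 := by rw [Λ.symm]
  have q1' : Λ'.b z1 z1 = Λ.b y1 y1 := q1
  have hq : Λ'.q (A + B + (C + D)) = Λ.q y0 := by
    rw [hy0]
    unfold Lat.q
    simp only [Λ'.add_left, Λ'.add_right, Λ.add_left, Λ.add_right, qA, qB, qC, qD, eAB, eab, eCD,
      ecd, eAC, eAD, eBC, eBD, s1, s1', s2, s2', s3, s3', s4, s4', s5, s5', s6, s6']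
  refine ⟨hq, ?_⟩
  -- the vector in the class `c0 + c1`
  have hcls : Λ'.pr (z1 + (C - A) - (D - B)) = c0 + c1 := by
    have e : z1 + (C - A) - (D - B) = (A + B + (C + D)) + z1 - ((A + D) + (A + D)) := by abel
    rw [e, map_sub, map_add, hp, hp1, map_add, self_add, sub_zero]
  have hle := hf'.le (z1 + (C - A) - (D - B))
  rw [hcls] at hle
  have hge : Λ'.q (z1 + (C - A) - (D - B)) =
      Λ.q (y1 + (c + d) - (a + b)) + 4 * Λ.b (b + d) (a + c) := by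
    unfold Lat.q
    simp only [Λ'.add_left, Λ'.add_right, Λ.add_left, Λ.add_right, Λ'.sub_left, Λ'.sub_right,
      Λ.sub_left, Λ.sub_right, qA, qB, qC, qD, eAB, eab, eCD, q1',
      ecd, eAC, eAD, eBC, eBD, s1, s1', s2, s2', s3, s3', s4, s4', s5, s5', s6, s6',
      e1A, e1B, e1C, e1D, t1, t2, t3, t4, t1', t2', t3', t4']
    ring
  have hpos : 0 ≤ Λ.b (b + d) (a + c) := by linarith
  have hsplit : y0 = (a + c) + (b + d) := by rw [hy0]; abel
  have hcase : a + c = 0 ∨ b + d = 0 := by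
    by_contra hno
    push Not at hno
    have h1 : a + c ≠ y0 := by
      intro h
      apply hno.2
      rw [← h] at hsplit
      exact left_eq_add.mp hsplit
    have h2 := hrv.2 (a + c) hno.1 h1
    rw [hsplit, Λ.add_left] at h2
    have h3 : Λ.b (a + c) (a + c) = Λ.q (a + c) := rfl
    linarith
  rcases hcase with h | h
  · right
    have h1 : A + C = 0 := by
      apply Λ'.eq_zero_of_q
      have : Λ'.q (A + C) = Λ.q (a + c) := by
        unfold Lat.q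
        simp only [Λ'.add_left, Λ'.add_right, Λ.add_left, Λ.add_right, qA, qC, eAC, s3, s3']
      rw [this, h, Λ.q_zero]
    have e : A + B + (C + D) = (A + C) + (B + D) := by abel
    rw [e, h1, zero_add, Λ'.add_left, e1B, e1D, hsplit, h, zero_add, Λ.add_left]
    ring
  · left
    have h1 : B + D = 0 := by
      apply Λ'.eq_zero_of_q
      have : Λ'.q (B + D) = Λ.q (b + d) := by
        unfold Lat.q
        simp only [Λ'.add_left, Λ'.add_right, Λ.add_left, Λ.add_right, qB, qD, eBD, s6, s6']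
      rw [this, h, Λ.q_zero]
    have e : A + B + (C + D) = (A + C) + (B + D) := by abel
    rw [e, h1, add_zero, Λ'.add_left, e1A, e1C, hsplit, h, add_zero, Λ.add_left]

/-- The pair lemma. -/
theorem zed (hf : IsVo Λ f) (hf' : IsVo Λ' f) {ϑ : ℝ}
    (HT : ∀ S : Finset V, (∀ c ∈ S, Rel f c) → ∑ c ∈ S, f c < ϑ → Tame Λ Λ' f S)
    (y : V → L) (hy : ∀ c, Rel f c → Mn Λ f c (y c)) {c0 c1 : V} (h0 : Rel f c0) (h1 : Rel f c1)
    {p q : L} (hpq : y c0 = p + q) (hm : Λ.q (y c1 + q - p) ≤ f (c0 + c1))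
    (w1 : Λ.q p + Λ.q q < ϑ) (w2 : Λ.q p + f c1 < ϑ) (w3 : Λ.q q + f c1 < ϑ) :
    ∃ z0 z1 : L', Mn Λ' f c0 z0 ∧ Mn Λ' f c1 z1 ∧ Λ'.b z0 z1 = Λ.b (y c0) (y c1) := by
  classical
  obtain ⟨P, k, hP, hPp, hPw⟩ := decomp hf y hy p
  obtain ⟨Q, l, hQ, hQq, hQw⟩ := decomp hf y hy q
  obtain ⟨z1, hz1⟩ := hf'.ex c1
  have hz1 : Mn Λ' f c1 z1 := hz1
  have rPQ : ∀ c ∈ P ∪ Q, Rel f c := by
    intro c hc
    rcases Finset.mem_union.mp hc with h | h
    · exact hP c h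
    · exact hQ c h
  have rP : ∀ c ∈ insert c1 P, Rel f c := by
    intro c hc
    rcases Finset.mem_insert.mp hc with h | h
    · rw [h]; exact h1
    · exact hP c h
  have rQ : ∀ c ∈ insert c1 Q, Rel f c := by
    intro c hc
    rcases Finset.mem_insert.mp hc with h | h
    · rw [h]; exact h1
    · exact hQ c h
  obtain ⟨g, hg⟩ := (HT (P ∪ Q) rPQ (by have := wsum_union_le hf P Q; linarith)).lift hf rPQ
    (fun c hc => hy c (rPQ c hc))
  obtain ⟨α, hα, hα1⟩ := (HT (insert c1 P) rP (by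
    have := wsum_insert_le hf c1 P; linarith)).lift_norm hf hf' rP
    (fun c hc => hy c (rP c hc)) (Finset.mem_insert_self c1 P) hz1
  obtain ⟨β, hβ, hβ1⟩ := (HT (insert c1 Q) rQ (by
    have := wsum_insert_le hf c1 Q; linarith)).lift_norm hf hf' rQ
    (fun c hc => hy c (rQ c hc)) (Finset.mem_insert_self c1 Q) hz1
  have kP : ∀ c ∈ P, g c = α c ∨ (¬ g c = α c ∧ g c = - α c) := by
    intro c hc
    by_cases h : g c = α c
    · exact Or.inl h
    · rcases mn_uniq hf' (hP c hc) (hα.mn c (Finset.mem_insert_of_mem hc))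
        (hg.mn c (Finset.mem_union_left _ hc)) with h3 | h3
      · exact absurd h3 h
      · exact Or.inr ⟨h, h3⟩
  have kQ : ∀ c ∈ Q, g c = β c ∨ (¬ g c = β c ∧ g c = - β c) := by
    intro c hc
    by_cases h : g c = β c
    · exact Or.inl h
    · rcases mn_uniq hf' (hQ c hc) (hβ.mn c (Finset.mem_insert_of_mem hc))
        (hg.mn c (Finset.mem_union_right _ hc)) with h3 | h3
      · exact absurd h3 h
      · exact Or.inr ⟨h, h3⟩
  set P1 := P.filter (fun c => g c = α c) with hP1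
  set P2 := P.filter (fun c => ¬ g c = α c) with hP2
  set Q1 := Q.filter (fun c => g c = β c) with hQ1
  set Q2 := Q.filter (fun c => ¬ g c = β c) with hQ2
  have mP1 : ∀ c ∈ P1, c ∈ P ∧ g c = α c := fun c hc => Finset.mem_filter.mp hc
  have mP2 : ∀ c ∈ P2, c ∈ P ∧ g c = - α c := by
    intro c hc
    obtain ⟨h, h'⟩ := Finset.mem_filter.mp hc
    rcases kP c h with h3 | h3
    · exact absurd h3 h'
    · exact ⟨h, h3.2⟩
  have mQ1 : ∀ c ∈ Q1, c ∈ Q ∧ g c = β c := fun c hc => Finset.mem_filter.mp hc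
  have mQ2 : ∀ c ∈ Q2, c ∈ Q ∧ g c = - β c := by
    intro c hc
    obtain ⟨h, h'⟩ := Finset.mem_filter.mp hc
    rcases kQ c h with h3 | h3
    · exact absurd h3 h'
    · exact ⟨h, h3.2⟩
  have sp : p = comb y P1 k + comb y P2 k := by
    rw [← hPp]; exact (comb_filter y P k _).symm
  have sq : q = comb y Q1 l + comb y Q2 l := by
    rw [← hQq]; exact (comb_filter y Q l _).symm
  have spg : comb g P k = comb g P1 k + comb g P2 k := (comb_filter g P k _).symm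
  have sqg : comb g Q l = comb g Q1 l + comb g Q2 l := (comb_filter g Q l _).symm
  have isoG : ∀ {c d : V}, (c ∈ P ∨ c ∈ Q) → (d ∈ P ∨ d ∈ Q) → Λ'.b (g c) (g d) = Λ.b (y c) (y d) :=
    fun hc hd => hg.iso _ (Finset.mem_union.mpr hc) _ (Finset.mem_union.mpr hd)
  -- orthogonality
  have oP : ∀ c ∈ P1, ∀ d ∈ P2, Λ.b (y c) (y d) = 0 := by
    intro c hc d hd
    obtain ⟨c2, c3⟩ := mP1 c hc
    obtain ⟨d2, d3⟩ := mP2 d hd
    have e1 := isoG (Or.inl c2) (Or.inl d2)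
    have e2 := hα.iso c (Finset.mem_insert_of_mem c2) d (Finset.mem_insert_of_mem d2)
    rw [c3, d3, Λ'.neg_right, e2] at e1
    linarith
  have oQ : ∀ c ∈ Q1, ∀ d ∈ Q2, Λ.b (y c) (y d) = 0 := by
    intro c hc d hd
    obtain ⟨c2, c3⟩ := mQ1 c hc
    obtain ⟨d2, d3⟩ := mQ2 d hd
    have e1 := isoG (Or.inr c2) (Or.inr d2)
    have e2 := hβ.iso c (Finset.mem_insert_of_mem c2) d (Finset.mem_insert_of_mem d2)
    rw [c3, d3, Λ'.neg_right, e2] at e1
    linarith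
  have hcls : Λ'.pr (comb g P1 k + comb g P2 k + (comb g Q1 l + comb g Q2 l)) = c0 := by
    rw [← spg, ← sqg, map_add]
    have e1 : Λ'.pr (comb g P k) = Λ.pr (comb y P k) :=
      pr_comb Λ Λ' (fun c hc => by
        rw [(hg.mn c (Finset.mem_union_left _ hc)).1, (hy c (hP c hc)).1]) k
    have e2 : Λ'.pr (comb g Q l) = Λ.pr (comb y Q l) :=
      pr_comb Λ Λ' (fun c hc => by
        rw [(hg.mn c (Finset.mem_union_right _ hc)).1, (hy c (hQ c hc)).1]) l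
    rw [e1, e2, hPp, hQq, ← map_add, ← hpq]
    exact (hy c0 h0).1
  have core := zed_core hf' (y0 := y c0) (y1 := y c1) (a := comb y P1 k) (b := comb y P2 k)
    (c := comb y Q1 l) (d := comb y Q2 l) (A := comb g P1 k) (B := comb g P2 k)
    (C := comb g Q1 l) (D := comb g Q2 l) (z1 := z1) (c0 := c0) (c1 := c1)
    (rv_of_rel hf h0 (hy c0 h0)) (by rw [hpq, ← sp, ← sq]) hcls hz1.1
    (by rw [← sp, ← sq]; exact hm) (by rw [hz1.2, (hy c1 h1).2])
    (comb_iso Λ Λ' (fun c hc d hd => isoG (Or.inl (mP1 c hc).1) (Or.inl (mP1 d hd).1)) k k)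
    (comb_iso Λ Λ' (fun c hc d hd => isoG (Or.inl (mP2 c hc).1) (Or.inl (mP2 d hd).1)) k k)
    (comb_iso Λ Λ' (fun c hc d hd => isoG (Or.inr (mQ1 c hc).1) (Or.inr (mQ1 d hd).1)) l l)
    (comb_iso Λ Λ' (fun c hc d hd => isoG (Or.inr (mQ2 c hc).1) (Or.inr (mQ2 d hd).1)) l l)
    (comb_zero Λ' (fun c hc d hd => by
      rw [isoG (Or.inl (mP1 c hc).1) (Or.inl (mP2 d hd).1), oP c hc d hd]) k k)
    (comb_zero Λ oP k k)
    (comb_zero Λ' (fun c hc d hd => by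
      rw [isoG (Or.inr (mQ1 c hc).1) (Or.inr (mQ2 d hd).1), oQ c hc d hd]) l l)
    (comb_zero Λ oQ l l)
    (comb_iso Λ Λ' (fun c hc d hd => isoG (Or.inl (mP1 c hc).1) (Or.inr (mQ1 d hd).1)) k l)
    (comb_iso Λ Λ' (fun c hc d hd => isoG (Or.inl (mP1 c hc).1) (Or.inr (mQ2 d hd).1)) k l)
    (comb_iso Λ Λ' (fun c hc d hd => isoG (Or.inl (mP2 c hc).1) (Or.inr (mQ1 d hd).1)) k l)
    (comb_iso Λ Λ' (fun c hc d hd => isoG (Or.inl (mP2 c hc).1) (Or.inr (mQ2 d hd).1)) k l)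
    (comb_iso_left Λ Λ' (fun c hc => by
      rw [(mP1 c hc).2, ← hα1]
      exact hα.iso c (Finset.mem_insert_of_mem (mP1 c hc).1) c1 (Finset.mem_insert_self _ _)) k)
    (comb_neg_left (fun c hc => by
      rw [(mP2 c hc).2, ← hα1, Λ'.neg_left]
      rw [hα.iso c (Finset.mem_insert_of_mem (mP2 c hc).1) c1 (Finset.mem_insert_self _ _)]) k)
    (comb_iso_left Λ Λ' (fun c hc => by
      rw [(mQ1 c hc).2, ← hβ1]
      exact hβ.iso c (Finset.mem_insert_of_mem (mQ1 c hc).1) c1 (Finset.mem_insert_self _ _)) l)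
    (comb_neg_left (fun c hc => by
      rw [(mQ2 c hc).2, ← hβ1, Λ'.neg_left]
      rw [hβ.iso c (Finset.mem_insert_of_mem (mQ2 c hc).1) c1 (Finset.mem_insert_self _ _)]) l)
  obtain ⟨hq, hb⟩ := core
  have hmn : Mn Λ' f c0 (comb g P1 k + comb g P2 k + (comb g Q1 l + comb g Q2 l)) :=
    ⟨hcls, by rw [hq, (hy c0 h0).2]⟩
  rcases hb with hb | hb
  · exact ⟨_, z1, hmn, hz1, hb⟩
  · exact ⟨_, z1, hmn.neg, hz1, by rw [Λ'.neg_left, hb, neg_neg]⟩

end Pool.Agent.L7h84.Vo
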